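import Mathlib

/-!
# Continuous cube roots of holomorphic functions

If `k` is continuous near `z`, `k z = 0` and `f w = k w ^ 3` near `z` for a function `f`
holomorphic near `z`, then `k` is holomorphic near `z` and `f w = O((w - z) ^ 3)`.
-/

set_option autoImplicit false

namespace Pool.Agent.Work.MP_0fc146_gt_helper76

open Complex Metric Set Filter Topology

/-- A continuous cube root of a holomorphic function is differentiable where it does not
vanish. -/
theorem differentiableAt_of_cube {f k : ℂ → ℂ} {w : ℂ} (hf : DifferentiableAt ℂ f w)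
    (hk : ContinuousAt k w) (hkw : k w ≠ 0) (h : ∀ᶠ x in 𝓝 w, f x = k x ^ 3) :
    DifferentiableAt ℂ k w := by
  have hfw : f w = k w ^ 3 := h.self_of_nhds
  refine (HasDerivAt.differentiableAt (f' := deriv f w / (3 * k w ^ 2)) ?_)
  rw [hasDerivAt_iff_tendsto_slope]
  have h1 : Tendsto (slope f w) (𝓝[≠] w) (𝓝 (deriv f w)) :=
    (hasDerivAt_iff_tendsto_slope.1 hf.hasDerivAt)
  have hden : Tendsto (fun x => k x ^ 2 + k x * k w + k w ^ 2) (𝓝 w) (𝓝 (3 * k w ^ 2)) := by
    have : Tendsto (fun x => k x ^ 2 + k x * k w + k w ^ 2) (𝓝 w)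
        (𝓝 (k w ^ 2 + k w * k w + k w ^ 2)) :=
      ((hk.pow 2).add (hk.mul continuousAt_const)).add continuousAt_const
    convert this using 2
    ring
  have hne : (3 : ℂ) * k w ^ 2 ≠ 0 := mul_ne_zero (by norm_num) (pow_ne_zero 2 hkw)
  have h2 := h1.div (hden.mono_left nhdsWithin_le_nhds) hne
  refine h2.congr' ?_
  have hev : ∀ᶠ x in 𝓝 w, k x ^ 2 + k x * k w + k w ^ 2 ≠ 0 := hden.eventually_ne hne
  filter_upwards [h.filter_mono nhdsWithin_le_nhds, hev.filter_mono nhdsWithin_le_nhds,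
    eventually_mem_nhdsWithin] with x hx hx2 hx3
  have hx3' : x - w ≠ 0 := sub_ne_zero.2 hx3
  simp only [Pi.div_apply, slope_def_field]
  rw [hx, hfw, div_div, div_eq_div_iff (mul_ne_zero hx3' hx2) hx3']
  ring

/-- A continuous cube root of a holomorphic function is holomorphic. -/
theorem analyticAt_of_cube {f k : ℂ → ℂ} {z : ℂ} (hf : AnalyticAt ℂ f z)
    (hk : ∀ᶠ w in 𝓝 z, ContinuousAt k w) (h : ∀ᶠ w in 𝓝 z, f w = k w ^ 3) :
    AnalyticAt ℂ k z := by
  by_cases h0 : ∀ᶠ w in 𝓝 z, f w = 0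
  · have : k =ᶠ[𝓝 z] fun _ => 0 := by
      filter_upwards [h0, h] with w h1 h2
      rw [h1] at h2
      exact pow_eq_zero_iff (three_ne_zero) |>.1 h2.symm
    exact analyticAt_const.congr this.symm
  · have h1 : ∀ᶠ w in 𝓝[≠] z, f w ≠ 0 :=
      (hf.eventually_eq_zero_or_eventually_ne_zero).resolve_left h0
    refine analyticAt_of_differentiable_on_punctured_nhds_of_continuousAt ?_ hk.self_of_nhds
    have hf' : ∀ᶠ w in 𝓝 z, AnalyticAt ℂ f w := hf.eventually_analyticAt
    have h2 : ∀ᶠ w in 𝓝 z, ∀ᶠ x in 𝓝 w, f x = k x ^ 3 := eventually_eventually_nhds.2 h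
    filter_upwards [h1, hf'.filter_mono nhdsWithin_le_nhds, h2.filter_mono nhdsWithin_le_nhds,
      hk.filter_mono nhdsWithin_le_nhds] with w hw1 hw2 hw3 hw4
    refine differentiableAt_of_cube hw2.differentiableAt hw4 ?_ hw3
    intro hkw
    apply hw1
    rw [hw3.self_of_nhds, hkw]
    simp

/-- A holomorphic function with a continuous cube root vanishing at `z` vanishes to third
order. -/
theorem isBigO_of_cube {f k : ℂ → ℂ} {z : ℂ} (hf : AnalyticAt ℂ f z)
    (hk : ∀ᶠ w in 𝓝 z, ContinuousAt k w) (h : ∀ᶠ w in 𝓝 z, f w = k w ^ 3) (hz : f z = 0) :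
    f =O[𝓝 z] fun w => (w - z) ^ 3 := by
  have hka := analyticAt_of_cube hf hk h
  have hkz : k z = 0 := by
    have := h.self_of_nhds
    rw [hz] at this
    exact pow_eq_zero_iff (three_ne_zero) |>.1 this.symm
  have h1 : (fun w => k w - k z) =O[𝓝 z] fun w => w - z := hka.differentiableAt.isBigO_sub
  simp only [hkz, sub_zero] at h1
  have h2 := h1.pow 3
  refine (EventuallyEq.trans_isBigO ?_ h2)
  exact h

end Pool.Agent.Work.MP_0fc146_gt_helper76
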