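import Mathlib

/-!
# An Ahlfors-Schwarz estimate for maps totally ramified over a net

If `L` is a uniformly discrete subset of `ℂ` with covering radius at most `R` and `g` is
holomorphic on the unit disc, ramified of order at least three over every point of `L`, then
`‖g' z‖ * (1 - ‖z‖ ^ 2) ≤ 3 * R` for all `z` in the disc.
-/

set_option autoImplicit false

namespace Pool.Agent.Work.MP_0fc146_gt_helper76

open Complex Metric Set Filter Topology

/-- The density of the hyperbolic cone metric of cone angle `π`. -/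
noncomputable def dens (x : ℝ) : ℝ := 1 / (Real.sqrt x * (1 - x))

theorem dens_zero : dens 0 = 0 := by simp [dens]

theorem dens_anti {x y : ℝ} (hx : 0 < x) (hxy : x ≤ y) (hy : y ≤ 1 / 3) : dens y ≤ dens x := by
  have hy0 : 0 < y := hx.trans_le hxy
  have h1 : Real.sqrt x ^ 2 = x := Real.sq_sqrt hx.le
  have h2 : Real.sqrt y ^ 2 = y := Real.sq_sqrt hy0.le
  have h3 : 0 < Real.sqrt x := Real.sqrt_pos.2 hx
  have h4 : Real.sqrt x ≤ Real.sqrt y := Real.sqrt_le_sqrt hxy
  unfold dens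
  refine one_div_le_one_div_of_le (mul_pos h3 (by linarith)) ?_
  set p := Real.sqrt x
  set q := Real.sqrt y
  rw [← h1, ← h2]
  have h5 : q * (1 - q ^ 2) - p * (1 - p ^ 2) = (q - p) * (1 - (q ^ 2 + q * p + p ^ 2)) := by ring
  have h6 : q ^ 2 + q * p + p ^ 2 ≤ 1 := by nlinarith
  nlinarith [mul_nonneg (sub_nonneg.2 h4) (sub_nonneg.2 h6)]

theorem dens_ge {x : ℝ} (hx : 0 < x) (hx4 : x ≤ 1 / 4) : 8 / 3 ≤ dens x := by
  refine le_trans ?_ (dens_anti hx hx4 (by norm_num))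
  have : Real.sqrt (1 / 4 : ℝ) = 1 / 2 := by
    rw [show (1 / 4 : ℝ) = (1 / 2) ^ 2 by norm_num]
    exact Real.sqrt_sq (by norm_num)
  unfold dens
  rw [this]
  norm_num

theorem continuousAt_dens {x : ℝ} (hx : 0 < x) (hx1 : x < 1) : ContinuousAt dens x := by
  unfold dens
  refine ContinuousAt.div continuousAt_const ?_ ?_
  · exact (Real.continuous_sqrt.continuousAt).mul (continuousAt_const.sub continuousAt_id)
  · exact (mul_pos (Real.sqrt_pos.2 hx) (by linarith)).ne'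

theorem dens_sq {x : ℝ} (hx : 0 ≤ x) : dens (x ^ 2) = 1 / (x * (1 - x ^ 2)) := by
  unfold dens
  rw [Real.sqrt_sq hx]

section Ramified

/-- Near a point of ramification order at least three, `‖f'‖ ^ 2 / ‖f‖` is small. -/
theorem tendsto_ram {f : ℂ → ℂ} {z₁ : ℂ} (hf : AnalyticAt ℂ f z₁)
    (hO : f =O[𝓝 z₁] fun w => (w - z₁) ^ 3) :
    ∃ C : ℝ, ∀ᶠ z in 𝓝 z₁, ‖deriv f z‖ ^ 2 ≤ C * ‖z - z₁‖ * ‖f z‖ := by
  by_cases h0 : ∀ᶠ z in 𝓝 z₁, f z = 0
  · refine ⟨0, ?_⟩
    have h1 : f =ᶠ[𝓝 z₁] fun _ => 0 := h0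
    have h2 := h1.eventuallyEq_nhds
    filter_upwards [h2] with z hz
    have : deriv f z = 0 := by
      rw [hz.deriv_eq]
      simp
    rw [this]
    simp
  · obtain ⟨n, φ, hφ, hφ0, hfφ⟩ := (hf.exists_eventuallyEq_pow_smul_nonzero_iff).2 h0
    -- the order is at least three
    have hn : 3 ≤ n := by
      by_contra hcon
      have hn' : n < 3 := by omega
      obtain ⟨C, hC⟩ := hO.bound
      have hlim : Tendsto (fun z => ‖φ z‖ - C * ‖z - z₁‖ ^ (3 - n)) (𝓝 z₁) (𝓝 (‖φ z₁‖ - C * 0)) := by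
        refine Tendsto.sub (hφ.continuousAt.norm) (Tendsto.const_mul _ ?_)
        have : Tendsto (fun z => ‖z - z₁‖) (𝓝 z₁) (𝓝 0) := by
          have := (continuous_id.sub (continuous_const (y := z₁))).norm.tendsto z₁
          simpa using this
        have h3 := this.pow (3 - n)
        rwa [zero_pow (by omega)] at h3
      have hpos : 0 < ‖φ z₁‖ - C * 0 := by simpa using hφ0
      have hev : ∀ᶠ z in 𝓝 z₁, 0 < ‖φ z‖ - C * ‖z - z₁‖ ^ (3 - n) := hlim.eventually_const_lt hpos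
      have hall := (hev.and (hC.and hfφ)).filter_mono (nhdsWithin_le_nhds (s := {z₁}ᶜ))
      have hne : ∀ᶠ z in 𝓝[≠] z₁, z ≠ z₁ := eventually_mem_nhdsWithin
      obtain ⟨z, ⟨hz1, hz2, hz3⟩, hz4⟩ := (hall.and hne).exists
      rw [hz3] at hz2
      have hpos' : 0 < ‖z - z₁‖ := norm_pos_iff.2 (sub_ne_zero.2 hz4)
      rw [smul_eq_mul, norm_mul, norm_pow, norm_pow] at hz2
      have h5 : ‖z - z₁‖ ^ 3 = ‖z - z₁‖ ^ n * ‖z - z₁‖ ^ (3 - n) := by
        rw [← pow_add]
        congr 1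
        omega
      rw [h5] at hz2
      have h6 : 0 < ‖z - z₁‖ ^ n := pow_pos hpos' n
      have h7 : ‖z - z₁‖ ^ n * ‖φ z‖ ≤ ‖z - z₁‖ ^ n * (C * ‖z - z₁‖ ^ (3 - n)) := by
        calc _ ≤ _ := hz2
          _ = _ := by ring
      have h8 := le_of_mul_le_mul_left h7 h6
      linarith
    obtain ⟨m, rfl⟩ : ∃ m, n = m + 3 := ⟨n - 3, by omega⟩
    -- bounds for `φ` near `z₁`
    set B : ℝ := ‖((m + 3 : ℕ) : ℂ)‖ * (‖φ z₁‖ + 1) + (‖deriv φ z₁‖ + 1) with hB
    have hφc : ∀ᶠ z in 𝓝 z₁, ‖φ z‖ < ‖φ z₁‖ + 1 :=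
      (hφ.continuousAt.norm).eventually_lt_const (by linarith)
    have hφlow : ∀ᶠ z in 𝓝 z₁, ‖φ z₁‖ / 2 < ‖φ z‖ :=
      (hφ.continuousAt.norm).eventually_const_lt (by
        have : 0 < ‖φ z₁‖ := norm_pos_iff.2 hφ0
        show ‖φ z₁‖ / 2 < ‖φ z₁‖
        linarith)
    have hφd : ∀ᶠ z in 𝓝 z₁, ‖deriv φ z‖ < ‖deriv φ z₁‖ + 1 :=
      (hφ.deriv.continuousAt.norm).eventually_lt_const (by linarith)
    have hφan : ∀ᶠ z in 𝓝 z₁, DifferentiableAt ℂ φ z :=
      hφ.eventually_analyticAt.mono fun z hz => hz.differentiableAt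
    have hnear : ∀ᶠ z in 𝓝 z₁, ‖z - z₁‖ < 1 := by
      have := Metric.ball_mem_nhds z₁ (zero_lt_one (α := ℝ))
      filter_upwards [this] with z hz
      rwa [mem_ball, dist_eq_norm] at hz
    have hder := EventuallyEq.eventuallyEq_nhds hfφ
    refine ⟨B ^ 2 * (2 / ‖φ z₁‖), ?_⟩
    filter_upwards [hφc, hφlow, hφd, hφan, hnear, hder, hfφ] with z h1 h2 h3 h4 h5 h6 h7
    have hp : 0 < ‖φ z₁‖ := norm_pos_iff.2 hφ0
    have hd : deriv f z = ((m + 3 : ℕ) : ℂ) * (z - z₁) ^ (m + 2) * φ z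
        + (z - z₁) ^ (m + 3) * deriv φ z := by
      rw [h6.deriv_eq]
      have e1 : HasDerivAt (fun w : ℂ => (w - z₁) ^ (m + 3))
          (((m + 3 : ℕ) : ℂ) * (z - z₁) ^ (m + 2) * 1) z := by
        have := ((hasDerivAt_id z).sub_const z₁).fun_pow (m + 3)
        simpa using this
      have e2 := e1.mul h4.hasDerivAt
      have e3 := e2.deriv
      simp only [smul_eq_mul]
      rw [mul_one] at e3
      exact e3
    set ρ := ‖z - z₁‖ with hρ
    have hρ0 : 0 ≤ ρ := norm_nonneg _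
    have hdn : ‖deriv f z‖ ≤ ρ ^ (m + 2) * B := by
      rw [hd]
      refine (norm_add_le _ _).trans ?_
      rw [norm_mul, norm_mul, norm_mul, norm_pow, norm_pow, ← hρ, hB]
      have e1 : ρ ^ (m + 3) ≤ ρ ^ (m + 2) := pow_le_pow_of_le_one hρ0 h5.le (by omega)
      have e2 : 0 ≤ ρ ^ (m + 2) := pow_nonneg hρ0 _
      have e3 : ρ ^ (m + 3) * ‖deriv φ z‖ ≤ ρ ^ (m + 2) * (‖deriv φ z₁‖ + 1) :=
        mul_le_mul e1 h3.le (norm_nonneg _) e2
      have e4 : ‖((m + 3 : ℕ) : ℂ)‖ * ρ ^ (m + 2) * ‖φ z‖ ≤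
          ‖((m + 3 : ℕ) : ℂ)‖ * ρ ^ (m + 2) * (‖φ z₁‖ + 1) :=
        mul_le_mul_of_nonneg_left h1.le (mul_nonneg (norm_nonneg _) e2)
      calc _ ≤ ‖((m + 3 : ℕ) : ℂ)‖ * ρ ^ (m + 2) * (‖φ z₁‖ + 1)
            + ρ ^ (m + 2) * (‖deriv φ z₁‖ + 1) := add_le_add e4 e3
        _ = _ := by ring
    have hfn : ρ ^ (m + 3) * (‖φ z₁‖ / 2) ≤ ‖f z‖ := by
      rw [h7, smul_eq_mul, norm_mul, norm_pow, ← hρ]
      exact mul_le_mul_of_nonneg_left h2.le (pow_nonneg hρ0 _)
    have hB0 : 0 ≤ B := by positivity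
    calc ‖deriv f z‖ ^ 2 ≤ (ρ ^ (m + 2) * B) ^ 2 := pow_le_pow_left₀ (norm_nonneg _) hdn 2
      _ = B ^ 2 * (ρ ^ m * (ρ * ρ ^ (m + 3))) := by ring
      _ ≤ B ^ 2 * (1 * (ρ * ρ ^ (m + 3))) := by
          refine mul_le_mul_of_nonneg_left ?_ (sq_nonneg B)
          exact mul_le_mul_of_nonneg_right (pow_le_one₀ hρ0 h5.le) (by positivity)
      _ = B ^ 2 * (2 / ‖φ z₁‖) * ρ * (ρ ^ (m + 3) * (‖φ z₁‖ / 2)) := by
          field_simp
      _ ≤ B ^ 2 * (2 / ‖φ z₁‖) * ρ * ‖f z‖ :=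
          mul_le_mul_of_nonneg_left hfn (by positivity)

end Ramified

section Main

variable {L : Set ℂ} {R ε : ℝ}

/-- The nearest point of a uniformly discrete set. -/
theorem exists_nearest (hcov : ∀ w : ℂ, ∃ l ∈ L, ‖w - l‖ ≤ R)
    (hε : 0 < ε) (hsep : ∀ l ∈ L, ∀ l' ∈ L, l ≠ l' → ε ≤ ‖l - l'‖) (w : ℂ) :
    ∃ l ∈ L, infDist w L = ‖w - l‖ ∧ ‖w - l‖ ≤ R := by
  have hne : L.Nonempty := let ⟨l, hl, _⟩ := hcov 0; ⟨l, hl⟩
  have hclosed : IsClosed L := by
    refine Metric.isClosed_of_pairwise_le_dist hε ?_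
    intro x hx y hy hxy
    rw [dist_eq_norm]
    exact hsep x hx y hy hxy
  obtain ⟨l, hl, h⟩ := hclosed.exists_infDist_eq_dist hne w
  refine ⟨l, hl, by rw [h, dist_eq_norm], ?_⟩
  obtain ⟨l', hl', h'⟩ := hcov w
  have h1 := infDist_le_dist_of_mem hl' (x := w)
  rw [h, dist_eq_norm, dist_eq_norm] at h1
  exact h1.trans h'

theorem infDist_near (hsep : ∀ l ∈ L, ∀ l' ∈ L, l ≠ l' → ε ≤ ‖l - l'‖) {l : ℂ}
    (hl : l ∈ L) {w : ℂ} (hw : ‖w - l‖ < ε / 2) : infDist w L = ‖w - l‖ := by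
  refine le_antisymm ?_ ?_
  · have := infDist_le_dist_of_mem hl (x := w)
    rwa [dist_eq_norm] at this
  · rw [le_infDist ⟨l, hl⟩]
    intro l' hl'
    by_cases h : l = l'
    · rw [← h, dist_eq_norm]
    · have h1 := hsep l hl l' hl' h
      have h2 : ‖l - l'‖ ≤ ‖w - l‖ + dist w l' := by
        rw [dist_eq_norm, norm_sub_rev w l]
        have : l - l' = (l - w) + (w - l') := by ring
        rw [this]
        exact norm_add_le _ _
      linarith

/-- The density of the pulled back metric, divided by the Poincaré density of the disc of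
radius `r` (up to a factor `2 * r`). -/
noncomputable def vfun (L : Set ℂ) (R r : ℝ) (g : ℂ → ℂ) (z : ℂ) : ℝ :=
  ‖deriv g z‖ * (dens (infDist (g z) L / (4 * R)) / (4 * R)) * (r ^ 2 - ‖z‖ ^ 2)

theorem continuousAt_vfun (hR : 0 < R) (hcov : ∀ w : ℂ, ∃ l ∈ L, ‖w - l‖ ≤ R)
    (hε : 0 < ε) (hsep : ∀ l ∈ L, ∀ l' ∈ L, l ≠ l' → ε ≤ ‖l - l'‖) {g : ℂ → ℂ} {r : ℝ} {z : ℂ}
    (hg : AnalyticAt ℂ g z)
    (hram : g z ∈ L → (fun w => g w - g z) =O[𝓝 z] fun w => (w - z) ^ 3) :
    ContinuousAt (vfun L R r g) z := by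
  by_cases hz : g z ∈ L
  · -- the value is zero
    have hv : vfun L R r g z = 0 := by
      unfold vfun
      rw [infDist_zero_of_mem hz, zero_div, dens_zero, zero_div, mul_zero, zero_mul]
    obtain ⟨C, hC⟩ := tendsto_ram (f := fun w => g w - g z) (hg.sub analyticAt_const) (hram hz)
    rw [ContinuousAt, hv]
    -- near `z`
    have hcont : Tendsto (fun w => ‖g w - g z‖) (𝓝 z) (𝓝 0) := by
      have := (hg.continuousAt.sub (continuousAt_const (y := g z))).norm
      rw [ContinuousAt] at this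
      simpa using this
    have h1 : ∀ᶠ w in 𝓝 z, ‖g w - g z‖ < min (ε / 2) R :=
      hcont.eventually_lt_const (lt_min (by linarith) hR)
    have hb : ∀ᶠ w in 𝓝 z, |r ^ 2 - ‖w‖ ^ 2| < |r ^ 2 - ‖z‖ ^ 2| + 1 := by
      have : ContinuousAt (fun w : ℂ => |r ^ 2 - ‖w‖ ^ 2|) z := by fun_prop
      exact this.eventually_lt_const (by linarith)
    have hlim : Tendsto (fun w => Real.sqrt (|C| * ‖w - z‖) * (2 / Real.sqrt (4 * R)) *
        (|r ^ 2 - ‖z‖ ^ 2| + 1)) (𝓝 z) (𝓝 0) := by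
      have h2 : Tendsto (fun w => ‖w - z‖) (𝓝 z) (𝓝 0) := by
        have := (continuous_id.sub (continuous_const (y := z))).norm.tendsto z
        simpa using this
      have h3 : Tendsto (fun w => Real.sqrt (|C| * ‖w - z‖)) (𝓝 z) (𝓝 0) := by
        have := (Real.continuous_sqrt.tendsto _).comp (h2.const_mul |C|)
        rw [mul_zero, Real.sqrt_zero] at this
        exact this
      have h4 := (h3.mul_const (2 / Real.sqrt (4 * R))).mul_const (|r ^ 2 - ‖z‖ ^ 2| + 1)
      simpa using h4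
    refine squeeze_zero_norm' ?_ hlim
    filter_upwards [h1, hb, hC] with w hw1 hw2 hw3
    have hdist : infDist (g w) L = ‖g w - g z‖ := infDist_near hsep hz (lt_of_lt_of_le hw1 (min_le_left _ _))
    have hder : deriv (fun w => g w - g z) w = deriv g w := by
      rw [deriv_sub_const]
    rw [hder] at hw3
    unfold vfun
    rw [hdist]
    by_cases h0 : g w - g z = 0
    · rw [h0, norm_zero, zero_div, dens_zero, zero_div, mul_zero, zero_mul, norm_zero]
      positivity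
    · have hpos : 0 < ‖g w - g z‖ := norm_pos_iff.2 h0
      set y := ‖g w - g z‖ with hy
      have hyR : y < R := lt_of_lt_of_le hw1 (min_le_right _ _)
      have hx0 : 0 < y / (4 * R) := by positivity
      have hx1 : y / (4 * R) ≤ 1 / 4 := by
        rw [div_le_div_iff₀ (by positivity) (by norm_num)]
        linarith
      have hsq : 0 < Real.sqrt (y / (4 * R)) := Real.sqrt_pos.2 hx0
      have hdens : dens (y / (4 * R)) / (4 * R) ≤ 2 / (Real.sqrt y * Real.sqrt (4 * R)) := by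
        unfold dens
        have e1 : Real.sqrt (y / (4 * R)) = Real.sqrt y / Real.sqrt (4 * R) :=
          Real.sqrt_div hpos.le _
        have e2 : 0 < Real.sqrt (4 * R) := Real.sqrt_pos.2 (by positivity)
        have e3 : 0 < Real.sqrt y := Real.sqrt_pos.2 hpos
        have e4 : Real.sqrt (4 * R) ^ 2 = 4 * R := Real.sq_sqrt (by positivity)
        rw [div_div, div_le_div_iff₀ (by rw [e1]; have : 0 < 1 - y / (4 * R) := by linarith
                                         positivity) (by positivity), e1]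
        have e5 : Real.sqrt y / Real.sqrt (4 * R) * (1 - y / (4 * R)) * (4 * R) =
            Real.sqrt y * Real.sqrt (4 * R) * (1 - y / (4 * R)) := by
          calc Real.sqrt y / Real.sqrt (4 * R) * (1 - y / (4 * R)) * (4 * R)
              = Real.sqrt y / Real.sqrt (4 * R) * (1 - y / (4 * R)) * Real.sqrt (4 * R) ^ 2 := by
                rw [e4]
            _ = Real.sqrt y * Real.sqrt (4 * R) * (1 - y / (4 * R)) := by
                generalize y / (4 * R) = t
                field_simp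
        rw [e5]
        have e6 : (0 : ℝ) < Real.sqrt y * Real.sqrt (4 * R) := by positivity
        nlinarith
      have hdens0 : 0 ≤ dens (y / (4 * R)) / (4 * R) := by
        have := dens_ge hx0 hx1
        positivity
      have hsqd : ‖deriv g w‖ ≤ Real.sqrt (|C| * ‖w - z‖) * Real.sqrt y := by
        rw [← Real.sqrt_mul (by positivity)]
        refine Real.le_sqrt_of_sq_le (hw3.trans ?_)
        have : C * ‖w - z‖ * y ≤ |C| * ‖w - z‖ * y := by
          gcongr
          exact le_abs_self C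
        exact this
      rw [Real.norm_eq_abs, abs_mul, abs_mul, abs_of_nonneg (norm_nonneg (deriv g w)),
        abs_of_nonneg hdens0]
      have e3 : 0 < Real.sqrt y := Real.sqrt_pos.2 hpos
      have e2 : 0 < Real.sqrt (4 * R) := Real.sqrt_pos.2 (by positivity)
      calc ‖deriv g w‖ * (dens (y / (4 * R)) / (4 * R)) * |r ^ 2 - ‖w‖ ^ 2|
          ≤ (Real.sqrt (|C| * ‖w - z‖) * Real.sqrt y) * (2 / (Real.sqrt y * Real.sqrt (4 * R))) *
            (|r ^ 2 - ‖z‖ ^ 2| + 1) := by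
            gcongr
        _ = Real.sqrt (|C| * ‖w - z‖) * (2 / Real.sqrt (4 * R)) * (|r ^ 2 - ‖z‖ ^ 2| + 1) := by
            field_simp
  · obtain ⟨l, hl, h1, h2⟩ := exists_nearest hcov hε hsep (g z)
    have hpos : 0 < infDist (g z) L := by
      rw [h1]
      exact norm_pos_iff.2 (sub_ne_zero.2 fun h => hz (h ▸ hl))
    have hle : infDist (g z) L ≤ R := h1 ▸ h2
    unfold vfun
    have hc : ContinuousAt (fun w => dens (infDist (g w) L / (4 * R))) z := by
      have h3 : ContinuousAt dens (infDist (g z) L / (4 * R)) := by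
        refine continuousAt_dens (by positivity) ?_
        rw [div_lt_one (by positivity)]
        linarith
      have h4 : ContinuousAt (fun w => infDist (g w) L / (4 * R)) z :=
        (((continuous_infDist_pt L).continuousAt).comp hg.continuousAt).div_const _
      exact ContinuousAt.comp (f := fun w => infDist (g w) L / (4 * R)) h3 h4
    exact ((hg.deriv.continuousAt.norm).mul (hc.div_const _)).mul (by fun_prop)

end Main

end Pool.Agent.Work.MP_0fc146_gt_helper76
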