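import Pool.Agent.Work.MP_0fc146_gt_helper76.TH1

set_option autoImplicit false

namespace Pool.Agent.Work.MP_0fc146_gt_helper76

open Complex Metric Set Filter Topology

theorem disc_identity (r : ℝ) (a z : ℂ) :
    ‖(r : ℂ) ^ 2 - (starRingEnd ℂ) a * z‖ ^ 2 - r ^ 2 * ‖z - a‖ ^ 2 =
      (r ^ 2 - ‖z‖ ^ 2) * (r ^ 2 - ‖a‖ ^ 2) := by
  rw [← Complex.normSq_eq_norm_sq, ← Complex.normSq_eq_norm_sq, ← Complex.normSq_eq_norm_sq,
    ← Complex.normSq_eq_norm_sq]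
  simp only [Complex.normSq_apply, Complex.sub_re, Complex.sub_im, Complex.mul_re, Complex.mul_im,
    Complex.conj_re, Complex.conj_im, ← Complex.ofReal_pow, Complex.ofReal_re, Complex.ofReal_im]
  ring

/-- The local form of the Ahlfors-Schwarz lemma: the ratio of two metrics of curvature `-1`
(the second being the Poincaré metric of the disc of radius `r`) has no local maximum with
value larger than one. -/
theorem local_contra {k : ℂ → ℂ} {z₀ : ℂ} {r M : ℝ} (hk : AnalyticAt ℂ k z₀) (hr : 0 < r)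
    (hz₀ : ‖z₀‖ < r) (hk0 : ‖k z₀‖ < 1) (hM : r < M)
    (heq : ‖deriv k z₀‖ * (r ^ 2 - ‖z₀‖ ^ 2) / (1 - ‖k z₀‖ ^ 2) = M)
    (hle : ∀ᶠ z in 𝓝 z₀, ‖deriv k z‖ * (r ^ 2 - ‖z‖ ^ 2) / (1 - ‖k z‖ ^ 2) ≤ M) : False := by
  set k₀ := k z₀ with hk₀
  have hA : 0 < r ^ 2 - ‖z₀‖ ^ 2 := by nlinarith [norm_nonneg z₀]
  have hB : 0 < 1 - ‖k₀‖ ^ 2 := by nlinarith [norm_nonneg k₀]
  have hM0 : 0 < M := hr.trans hM
  -- the auxiliary holomorphic function
  let F : ℂ → ℂ := fun z =>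
    deriv k z * ((r : ℂ) ^ 2 - (starRingEnd ℂ) z₀ * z) ^ 2 / (1 - (starRingEnd ℂ) k₀ * k z) ^ 2
  have hid1 : ∀ z : ℂ, ‖(r : ℂ) ^ 2 - (starRingEnd ℂ) z₀ * z‖ ^ 2 =
      r ^ 2 * ‖z - z₀‖ ^ 2 + (r ^ 2 - ‖z‖ ^ 2) * (r ^ 2 - ‖z₀‖ ^ 2) := fun z => by
    rw [← disc_identity r z₀ z]; ring
  have hid2 : ∀ z : ℂ, ‖1 - (starRingEnd ℂ) k₀ * k z‖ ^ 2 =
      ‖k z - k₀‖ ^ 2 + (1 - ‖k z‖ ^ 2) * (1 - ‖k₀‖ ^ 2) := fun z => by
    have := disc_identity 1 k₀ (k z)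
    simp only [Complex.ofReal_one, one_pow, one_mul] at this
    linarith
  have hne0 : (1 - (starRingEnd ℂ) k₀ * k z₀) ≠ 0 := by
    intro h
    have := hid2 z₀
    rw [h, norm_zero, ← hk₀, sub_self, norm_zero] at this
    nlinarith
  -- the slope
  have hcont : ContinuousAt (fun z => ‖dslope k z₀ z‖ * ‖(r : ℂ) ^ 2 - (starRingEnd ℂ) z₀ * z‖ -
      r * ‖1 - (starRingEnd ℂ) k₀ * k z‖) z₀ := by
    refine ContinuousAt.sub (ContinuousAt.mul ?_ (by fun_prop)) (ContinuousAt.mul (by fun_prop) ?_)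
    · exact (continuousAt_dslope_same.2 hk.differentiableAt).norm
    · exact (continuousAt_const.sub (continuousAt_const.mul hk.continuousAt)).norm
  have hval : 0 < ‖dslope k z₀ z₀‖ * ‖(r : ℂ) ^ 2 - (starRingEnd ℂ) z₀ * z₀‖ -
      r * ‖1 - (starRingEnd ℂ) k₀ * k z₀‖ := by
    have e1 : ‖(r : ℂ) ^ 2 - (starRingEnd ℂ) z₀ * z₀‖ = r ^ 2 - ‖z₀‖ ^ 2 := by
      have := hid1 z₀
      rw [sub_self, norm_zero] at this
      have h2 : ‖(r : ℂ) ^ 2 - (starRingEnd ℂ) z₀ * z₀‖ ^ 2 = (r ^ 2 - ‖z₀‖ ^ 2) ^ 2 := by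
        rw [this]; ring
      exact (pow_left_inj₀ (norm_nonneg _) hA.le two_ne_zero).1 h2
    have e2 : ‖1 - (starRingEnd ℂ) k₀ * k z₀‖ = 1 - ‖k₀‖ ^ 2 := by
      have := hid2 z₀
      rw [← hk₀, sub_self, norm_zero] at this
      have h2 : ‖1 - (starRingEnd ℂ) k₀ * k₀‖ ^ 2 = (1 - ‖k₀‖ ^ 2) ^ 2 := by
        rw [this]; ring
      exact (pow_left_inj₀ (norm_nonneg _) hB.le two_ne_zero).1 h2
    rw [e1, e2, dslope_same]
    have h3 : ‖deriv k z₀‖ * (r ^ 2 - ‖z₀‖ ^ 2) = M * (1 - ‖k₀‖ ^ 2) := by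
      rw [← heq]
      field_simp
    rw [h3]
    nlinarith
  have hpos := hcont.eventually_const_lt hval
  have hkc : ∀ᶠ z in 𝓝 z₀, ‖k z‖ < 1 := hk.continuousAt.norm.eventually_lt_const hk0
  have hzc : ∀ᶠ z in 𝓝 z₀, ‖z‖ < r := continuousAt_id.norm.eventually_lt_const hz₀
  have hnec : ∀ᶠ z in 𝓝 z₀, (1 - (starRingEnd ℂ) k₀ * k z) ≠ 0 :=
    (continuousAt_const.sub (continuousAt_const.mul hk.continuousAt)).eventually_ne hne0
  -- the strict inequality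
  have hstrict : ∀ᶠ z in 𝓝 z₀, z ≠ z₀ → ‖F z‖ < ‖F z₀‖ := by
    filter_upwards [hpos, hkc, hzc, hnec, hle] with z h1 h2 h3 h4 h5 hne
    have hA' : 0 < r ^ 2 - ‖z‖ ^ 2 := by nlinarith [norm_nonneg z]
    have hB' : 0 < 1 - ‖k z‖ ^ 2 := by nlinarith [norm_nonneg (k z)]
    have hd : 0 < ‖z - z₀‖ := norm_pos_iff.2 (sub_ne_zero.2 hne)
    have hslope : ‖dslope k z₀ z‖ * ‖z - z₀‖ = ‖k z - k₀‖ := by
      rw [dslope_of_ne _ hne, slope_def_field, norm_div, hk₀]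
      field_simp
    set X := ‖(r : ℂ) ^ 2 - (starRingEnd ℂ) z₀ * z‖ with hX
    set Y := ‖1 - (starRingEnd ℂ) k₀ * k z‖ with hY
    have hX0 : 0 < X := by
      by_contra hcon
      have : X = 0 := le_antisymm (not_lt.1 hcon) (norm_nonneg _)
      have h6 := hid1 z
      rw [← hX, this] at h6
      nlinarith [mul_pos hA' hA, mul_nonneg (sq_nonneg r) (sq_nonneg ‖z - z₀‖)]
    have hY0 : 0 < Y := norm_pos_iff.2 h4
    have hxy : r * ‖z - z₀‖ * Y < ‖k z - k₀‖ * X := by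
      rw [← hslope]
      nlinarith
    -- norms of `F`
    have hF : ‖F z‖ = ‖deriv k z‖ * X ^ 2 / Y ^ 2 := by
      simp only [F, norm_div, norm_mul, norm_pow]
      rfl
    have hF0 : ‖F z₀‖ = M * (r ^ 2 - ‖z₀‖ ^ 2) / (1 - ‖k₀‖ ^ 2) := by
      have e0 : ‖F z₀‖ = ‖deriv k z₀‖ * ‖(r : ℂ) ^ 2 - (starRingEnd ℂ) z₀ * z₀‖ ^ 2 /
          ‖1 - (starRingEnd ℂ) k₀ * k z₀‖ ^ 2 := by
        simp only [F, norm_div, norm_mul, norm_pow]
      rw [e0, hid1 z₀, hid2 z₀, ← hk₀, sub_self, sub_self, norm_zero, ← heq]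
      field_simp
      ring
    rw [hF, hF0]
    have h6 : ‖deriv k z‖ ≤ M * (1 - ‖k z‖ ^ 2) / (r ^ 2 - ‖z‖ ^ 2) := by
      rw [le_div_iff₀ hA']
      rwa [div_le_iff₀ hB'] at h5
    have h7 : (1 - ‖k z‖ ^ 2) * (1 - ‖k₀‖ ^ 2) * X ^ 2 <
        (r ^ 2 - ‖z‖ ^ 2) * (r ^ 2 - ‖z₀‖ ^ 2) * Y ^ 2 := by
      have e1 : (1 - ‖k z‖ ^ 2) * (1 - ‖k₀‖ ^ 2) = Y ^ 2 - ‖k z - k₀‖ ^ 2 := by
        rw [hid2 z]; ring
      have e2 : (r ^ 2 - ‖z‖ ^ 2) * (r ^ 2 - ‖z₀‖ ^ 2) = X ^ 2 - r ^ 2 * ‖z - z₀‖ ^ 2 := by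
        rw [hid1 z]; ring
      rw [e1, e2]
      have e3 : (r * ‖z - z₀‖ * Y) ^ 2 < (‖k z - k₀‖ * X) ^ 2 :=
        pow_lt_pow_left₀ hxy (by positivity) two_ne_zero
      nlinarith
    calc ‖deriv k z‖ * X ^ 2 / Y ^ 2
        ≤ M * (1 - ‖k z‖ ^ 2) / (r ^ 2 - ‖z‖ ^ 2) * X ^ 2 / Y ^ 2 := by gcongr
      _ < M * (r ^ 2 - ‖z₀‖ ^ 2) / (1 - ‖k₀‖ ^ 2) := by
          rw [div_mul_eq_mul_div, div_div, div_lt_div_iff₀ (by positivity) hB]
          nlinarith [mul_lt_mul_of_pos_left h7 hM0]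
  have hmax : IsLocalMax (norm ∘ F) z₀ := by
    filter_upwards [hstrict] with z hz
    by_cases h : z = z₀
    · rw [h]
    · exact (hz h).le
  have hdiff : ∀ᶠ z in 𝓝 z₀, DifferentiableAt ℂ F z := by
    have hkan : ∀ᶠ z in 𝓝 z₀, AnalyticAt ℂ k z := hk.eventually_analyticAt
    filter_upwards [hkan, hnec] with z h1 h2
    have e1 : DifferentiableAt ℂ (deriv k) z := h1.deriv.differentiableAt
    have e2 : DifferentiableAt ℂ k z := h1.differentiableAt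
    refine DifferentiableAt.div (e1.mul ?_) ?_ (pow_ne_zero 2 h2)
    · fun_prop
    · exact ((differentiableAt_const _).sub ((differentiableAt_const _).mul e2)).pow 2
  have heqn := Complex.norm_eventually_eq_of_isLocalMax hdiff hmax
  have hall := (heqn.and hstrict).filter_mono (nhdsWithin_le_nhds (s := {z₀}ᶜ))
  have hne : ∀ᶠ z in 𝓝[≠] z₀, z ≠ z₀ := eventually_mem_nhdsWithin
  obtain ⟨z, ⟨h1, h2⟩, h3⟩ := (hall.and hne).exists
  exact (h2 h3).ne h1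

section Main

variable {L : Set ℂ} {R ε : ℝ}

theorem vfun_le (hR : 0 < R) (hcov : ∀ w : ℂ, ∃ l ∈ L, ‖w - l‖ ≤ R)
    (hε : 0 < ε) (hsep : ∀ l ∈ L, ∀ l' ∈ L, l ≠ l' → ε ≤ ‖l - l'‖) {g : ℂ → ℂ} {r : ℝ}
    (hr : 0 < r) (hr1 : r < 1) (hg : DifferentiableOn ℂ g (ball 0 1))
    (hram : ∀ z ∈ ball (0 : ℂ) 1, g z ∈ L → (fun w => g w - g z) =O[𝓝 z] fun w => (w - z) ^ 3)
    {z : ℂ} (hz : z ∈ closedBall (0 : ℂ) r) : vfun L R r g z ≤ 2 * r := by
  have hsub : closedBall (0 : ℂ) r ⊆ ball 0 1 := closedBall_subset_ball hr1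
  have han : ∀ z ∈ ball (0 : ℂ) 1, AnalyticAt ℂ g z := fun z hz =>
    hg.analyticAt (isOpen_ball.mem_nhds hz)
  have hcont : ContinuousOn (vfun L R r g) (closedBall 0 r) := fun z hz =>
    (continuousAt_vfun hR hcov hε hsep (han z (hsub hz)) (hram z (hsub hz))).continuousWithinAt
  obtain ⟨z₀, hz₀, hmax⟩ := (isCompact_closedBall (0 : ℂ) r).exists_isMaxOn
    ⟨0, mem_closedBall_self hr.le⟩ hcont
  by_contra hcon
  have hbig : 2 * r < vfun L R r g z₀ := (not_le.1 hcon).trans_le (hmax hz)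
  have hz₀' : ‖z₀‖ ≤ r := by simpa using hz₀
  have hz₀r : ‖z₀‖ < r := by
    refine lt_of_le_of_ne hz₀' fun h => ?_
    have : vfun L R r g z₀ = 0 := by
      unfold vfun
      rw [h, sub_self, mul_zero]
    linarith
  have hz₀1 : z₀ ∈ ball (0 : ℂ) 1 := hsub hz₀
  have hA : 0 < r ^ 2 - ‖z₀‖ ^ 2 := by nlinarith [norm_nonneg z₀]
  have hnot : g z₀ ∉ L := by
    intro h
    have : vfun L R r g z₀ = 0 := by
      unfold vfun
      rw [infDist_zero_of_mem h, zero_div, dens_zero, zero_div, mul_zero, zero_mul]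
    linarith
  obtain ⟨l, hl, hdist, hlR⟩ := exists_nearest hcov hε hsep (g z₀)
  have hgl : g z₀ - l ≠ 0 := fun h => hnot (by rw [sub_eq_zero.1 h]; exact hl)
  set s : ℝ := 4 * R with hs
  have hs0 : 0 < s := by positivity
  -- the branch
  let c : ℂ := ((g z₀ - l) / s) ^ (1 / 2 : ℂ)
  let k : ℂ → ℂ := fun z => c * ((g z - l) / (g z₀ - l)) ^ (1 / 2 : ℂ)
  have hsqrt : ∀ w : ℂ, (w ^ (1 / 2 : ℂ)) ^ 2 = w := fun w => by
    have := Complex.cpow_nat_inv_pow w (n := 2) two_ne_zero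
    rw [one_div]
    exact_mod_cast this
  have hksq : ∀ z, k z ^ 2 = (g z - l) / s := fun z => by
    simp only [k, c, mul_pow, hsqrt]
    field_simp
  have hkan : AnalyticAt ℂ k z₀ := by
    refine analyticAt_const.mul ?_
    refine AnalyticAt.cpow (((han z₀ hz₀1).sub analyticAt_const).div analyticAt_const hgl)
      analyticAt_const ?_
    rw [div_self hgl]
    exact Complex.one_mem_slitPlane
  have hknorm : ∀ z, ‖k z‖ ^ 2 = ‖g z - l‖ / s := fun z => by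
    rw [← norm_pow, hksq, norm_div, Complex.norm_real, Real.norm_of_nonneg hs0.le]
  have hkder : ∀ᶠ z in 𝓝 z₀, 2 * ‖k z‖ * ‖deriv k z‖ = ‖deriv g z‖ / s := by
    have h1 : ∀ᶠ z in 𝓝 z₀, AnalyticAt ℂ k z := hkan.eventually_analyticAt
    have h2 : ∀ᶠ z in 𝓝 z₀, AnalyticAt ℂ g z := (han z₀ hz₀1).eventually_analyticAt
    filter_upwards [h1, h2] with z hz1 hz2
    have e1 : HasDerivAt (fun w => k w ^ 2) ((2 : ℕ) * k z ^ (2 - 1) * deriv k z) z :=
      hz1.differentiableAt.hasDerivAt.fun_pow 2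
    have e2 : HasDerivAt (fun w => (g w - l) / s) (deriv g z / s) z :=
      (hz2.differentiableAt.hasDerivAt.sub_const l).div_const _
    have e3 : (fun w => k w ^ 2) = fun w => (g w - l) / s := funext hksq
    rw [e3] at e1
    have e4 := e1.unique e2
    have e5 := congrArg norm e4
    rw [norm_div, Complex.norm_real, Real.norm_of_nonneg hs0.le] at e5
    rw [← e5]
    simp
  -- comparison
  have hcmp : ∀ᶠ z in 𝓝 z₀, 2 * (‖deriv k z‖ * (r ^ 2 - ‖z‖ ^ 2) / (1 - ‖k z‖ ^ 2)) ≤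
      vfun L R r g z := by
    have h1 : ∀ᶠ z in 𝓝 z₀, ‖z‖ < r := continuousAt_id.norm.eventually_lt_const hz₀r
    have h2 : ∀ᶠ z in 𝓝 z₀, g z ∉ L := by
      have : IsClosed L := Metric.isClosed_of_pairwise_le_dist hε (fun x hx y hy hxy => by
        show ε ≤ dist x y
        rw [dist_eq_norm]; exact hsep x hx y hy hxy)
      exact (han z₀ hz₀1).continuousAt.eventually (this.isOpen_compl.mem_nhds hnot)
    have h3 : ∀ᶠ z in 𝓝 z₀, ‖g z - l‖ < 4 / 3 * R := by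
      refine (((han z₀ hz₀1).continuousAt.sub continuousAt_const).norm).eventually_lt_const ?_
      show ‖g z₀ - l‖ < 4 / 3 * R
      linarith
    filter_upwards [h1, h2, h3, hkder] with z hz1 hz2 hz3 hz4
    have hA' : 0 < r ^ 2 - ‖z‖ ^ 2 := by nlinarith [norm_nonneg z]
    have hpos : 0 < ‖g z - l‖ := norm_pos_iff.2 fun h => hz2 (by rw [sub_eq_zero.1 h]; exact hl)
    have hinf : infDist (g z) L ≤ ‖g z - l‖ := by
      have := infDist_le_dist_of_mem hl (x := g z)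
      rwa [dist_eq_norm] at this
    have hinf0 : 0 < infDist (g z) L := by
      obtain ⟨l', hl', e1, _⟩ := exists_nearest hcov hε hsep (g z)
      rw [e1]
      exact norm_pos_iff.2 fun h => hz2 (by rw [sub_eq_zero.1 h]; exact hl')
    have hk1 : 0 < ‖k z‖ := by
      have : 0 < ‖k z‖ ^ 2 := by rw [hknorm]; positivity
      exact norm_pos_iff.2 fun h => by rw [h, norm_zero] at this; norm_num at this
    have hk2 : ‖k z‖ ^ 2 ≤ 1 / 3 := by
      rw [hknorm, div_le_iff₀ hs0, hs]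
      linarith
    have hd : dens (‖k z‖ ^ 2) ≤ dens (infDist (g z) L / s) := by
      rw [hknorm]
      refine dens_anti (by positivity) (by gcongr) ?_
      rw [← hknorm]
      exact hk2
    have hd' : dens (‖k z‖ ^ 2) = 1 / (‖k z‖ * (1 - ‖k z‖ ^ 2)) := dens_sq hk1.le
    have hB' : 0 < 1 - ‖k z‖ ^ 2 := by linarith
    have hg' : ‖deriv g z‖ = 2 * ‖k z‖ * ‖deriv k z‖ * s := by
      rw [hz4]
      field_simp
    calc 2 * (‖deriv k z‖ * (r ^ 2 - ‖z‖ ^ 2) / (1 - ‖k z‖ ^ 2))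
        = ‖deriv g z‖ * (dens (‖k z‖ ^ 2) / s) * (r ^ 2 - ‖z‖ ^ 2) := by
          rw [hg', hd']
          field_simp
      _ ≤ ‖deriv g z‖ * (dens (infDist (g z) L / s) / s) * (r ^ 2 - ‖z‖ ^ 2) := by
          gcongr
      _ = vfun L R r g z := rfl
  have hcmp0 : 2 * (‖deriv k z₀‖ * (r ^ 2 - ‖z₀‖ ^ 2) / (1 - ‖k z₀‖ ^ 2)) =
      vfun L R r g z₀ := by
    have hz4 := hkder.self_of_nhds
    have hpos : 0 < ‖g z₀ - l‖ := norm_pos_iff.2 hgl
    have hk1 : 0 < ‖k z₀‖ := by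
      have : 0 < ‖k z₀‖ ^ 2 := by rw [hknorm]; positivity
      exact norm_pos_iff.2 fun h => by rw [h, norm_zero] at this; norm_num at this
    have hk2 : ‖k z₀‖ ^ 2 ≤ 1 / 4 := by
      rw [hknorm, div_le_iff₀ hs0, hs]
      linarith
    have hd' : dens (infDist (g z₀) L / s) = 1 / (‖k z₀‖ * (1 - ‖k z₀‖ ^ 2)) := by
      rw [hdist, ← hknorm]
      exact dens_sq hk1.le
    have hB' : 0 < 1 - ‖k z₀‖ ^ 2 := by linarith
    have hg' : ‖deriv g z₀‖ = 2 * ‖k z₀‖ * ‖deriv k z₀‖ * s := by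
      rw [hz4]
      field_simp
    unfold vfun
    rw [← hs, hd', hg']
    field_simp
  have hk2 : ‖k z₀‖ < 1 := by
    have : ‖k z₀‖ ^ 2 ≤ 1 / 4 := by
      rw [hknorm, div_le_iff₀ hs0, hs]
      linarith
    nlinarith [norm_nonneg (k z₀)]
  refine local_contra (M := vfun L R r g z₀ / 2) hkan hr hz₀r hk2 (by linarith) (by linarith) ?_
  have hev : ∀ᶠ z in 𝓝 z₀, z ∈ closedBall (0 : ℂ) r := by
    have : closedBall (0 : ℂ) r ∈ 𝓝 z₀ := by
      refine mem_of_superset (isOpen_ball.mem_nhds (x := z₀) (s := ball (0 : ℂ) r) ?_)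
        ball_subset_closedBall
      simpa using hz₀r
    exact this
  filter_upwards [hcmp, hev] with z h1 h2
  have h3 : vfun L R r g z ≤ vfun L R r g z₀ := hmax h2
  linarith

/-- **Ahlfors-Schwarz estimate.**  A holomorphic function on the unit disc which is totally
ramified of order at least three over a uniformly discrete set of covering radius at most `R` is
Lipschitz for the Poincaré metric, with a constant depending only on `R`. -/
theorem norm_deriv_le (hR : 0 < R) (hcov : ∀ w : ℂ, ∃ l ∈ L, ‖w - l‖ ≤ R)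
    (hε : 0 < ε) (hsep : ∀ l ∈ L, ∀ l' ∈ L, l ≠ l' → ε ≤ ‖l - l'‖) {g : ℂ → ℂ}
    (hg : DifferentiableOn ℂ g (ball 0 1))
    (hram : ∀ z ∈ ball (0 : ℂ) 1, g z ∈ L → (fun w => g w - g z) =O[𝓝 z] fun w => (w - z) ^ 3)
    {z : ℂ} (hz : z ∈ ball (0 : ℂ) 1) : ‖deriv g z‖ * (1 - ‖z‖ ^ 2) ≤ 3 * R := by
  have hz1 : ‖z‖ < 1 := by simpa using hz
  have hbound : ∀ r : ℝ, ‖z‖ < r → r < 1 → ‖deriv g z‖ * (r ^ 2 - ‖z‖ ^ 2) ≤ 3 * R * r := by
    intro r hr hr1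
    have hr0 : 0 < r := (norm_nonneg z).trans_lt hr
    have hA : 0 < r ^ 2 - ‖z‖ ^ 2 := by nlinarith [norm_nonneg z]
    by_cases hL : g z ∈ L
    · -- the derivative vanishes
      obtain ⟨C, hC⟩ := (hram z hz hL).bound
      have hd : HasDerivAt g 0 z := by
        rw [hasDerivAt_iff_isLittleO]
        simp only [smul_zero, sub_zero]
        refine (hram z hz hL).trans_isLittleO ?_
        have : (fun w : ℂ => (w - z) ^ 3) =o[𝓝 z] fun w => (w - z) ^ 1 := by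
          have h1 : Tendsto (fun w : ℂ => w - z) (𝓝 z) (𝓝 0) := by
            have h : Continuous fun w : ℂ => w - z := by fun_prop
            have := h.tendsto z
            rwa [sub_self] at this
          exact (Asymptotics.isLittleO_pow_pow (𝕜 := ℂ) (m := 1) (n := 3) (by norm_num)).comp_tendsto h1
        simpa using this
      rw [hd.deriv, norm_zero, zero_mul]
      positivity
    · have h1 := vfun_le hR hcov hε hsep hr0 hr1 hg hram (z := z) (by simpa using hr.le)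
      obtain ⟨l, hl, h2, h3⟩ := exists_nearest hcov hε hsep (g z)
      have h4 : 0 < infDist (g z) L := by
        rw [h2]
        exact norm_pos_iff.2 fun h => hL (by rw [sub_eq_zero.1 h]; exact hl)
      have h5 : 8 / 3 ≤ dens (infDist (g z) L / (4 * R)) := by
        refine dens_ge (by positivity) ?_
        rw [div_le_iff₀ (by positivity), h2]
        linarith
      unfold vfun at h1
      have h6 : ‖deriv g z‖ * (8 / 3 / (4 * R)) * (r ^ 2 - ‖z‖ ^ 2) ≤ 2 * r := by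
        refine le_trans ?_ h1
        gcongr
      have h7 : ‖deriv g z‖ * (r ^ 2 - ‖z‖ ^ 2) =
          (‖deriv g z‖ * (8 / 3 / (4 * R)) * (r ^ 2 - ‖z‖ ^ 2)) * (3 / 2 * R) := by
        field_simp
        ring
      rw [h7]
      calc _ ≤ 2 * r * (3 / 2 * R) := by gcongr
        _ = 3 * R * r := by ring
  -- let `r` tend to one
  have hlim1 : Tendsto (fun r : ℝ => ‖deriv g z‖ * (r ^ 2 - ‖z‖ ^ 2)) (𝓝[<] 1)
      (𝓝 (‖deriv g z‖ * (1 ^ 2 - ‖z‖ ^ 2))) := by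
    refine Tendsto.mono_left (Continuous.tendsto (by fun_prop) 1) nhdsWithin_le_nhds
  have hlim2 : Tendsto (fun r : ℝ => 3 * R * r) (𝓝[<] 1) (𝓝 (3 * R * 1)) := by
    refine Tendsto.mono_left (Continuous.tendsto (by fun_prop) 1) nhdsWithin_le_nhds
  have hev : ∀ᶠ r : ℝ in 𝓝[<] 1, ‖deriv g z‖ * (r ^ 2 - ‖z‖ ^ 2) ≤ 3 * R * r := by
    have h1 : ∀ᶠ r : ℝ in 𝓝[<] 1, r < 1 := eventually_mem_nhdsWithin
    have h2 : ∀ᶠ r : ℝ in 𝓝[<] 1, ‖z‖ < r :=
      (eventually_gt_nhds hz1).filter_mono nhdsWithin_le_nhds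
    filter_upwards [h1, h2] with r hr1 hr2
    exact hbound r hr2 hr1
  have := le_of_tendsto_of_tendsto hlim1 hlim2 hev
  simpa using this

end Main

end Pool.Agent.Work.MP_0fc146_gt_helper76
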