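import Pool.Agent.Work.MP_0fc146_gt_helper76.TL3

/-!
# Block TL, part 4: loops with small developed image are peripheral
-/

noncomputable section

open scoped Topology UpperHalfPlane ComplexConjugate
open Filter Set

namespace Pool.Agent.CircleShift

namespace TLAux

namespace Ctx2

variable {U : Type} [TopologicalSpace U] [T2Space U] [MulAction G U] (T : Ctx2 U)

omit [T2Space U] in
theorem radius : ∃ r₁ > 0, r₁ ≤ T.r₀ ∧ Metric.ball (0 : ℂ) r₁ ⊆ T.toCtx.O := by
  obtain ⟨δ, hδ, hb⟩ := Metric.isOpen_iff.1 T.toCtx.isOpen_O 0 T.toCtx.zero_mem_O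
  exact ⟨min δ T.r₀, lt_min hδ T.hr₀, min_le_right _ _,
    (Metric.ball_subset_ball (min_le_left _ _)).trans hb⟩

omit [T2Space U] in
theorem over_zero {u : U} (h : T.D u = 0) : ∃ g : G, T.tau g = 0 ∧ u = g • T.C₀ := by
  obtain ⟨g, hg⟩ := T.hB.fib u 1 (by rw [h, T.toCtx.tau_one])
  refine ⟨g, ?_, hg⟩
  rw [← T.toCtx.D_cone, ← hg, h]

omit [T2Space U] in
theorem cone_self (g : G) : T.toCtx.inN g (g • T.C₀) := by
  unfold Ctx.inN
  rw [inv_smul_smul]
  exact T.heC

omit [T2Space U] in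
/-- a point over the ray is not a lattice point -/
theorem not_lattice {u : U} (hE : T.D u ∈ T.E) (h0 : T.D u ≠ 0) (g : G) : T.D u ≠ T.tau g := by
  intro h
  apply h0
  rw [h]
  apply T.toCtx.lattice_zero
  rw [← h]
  exact hE

omit [T2Space U] in
/-- the two sides of the ray -/
theorem on_ray {q y : ℂ} (h : q ∈ segment ℝ (0 : ℂ) y) (hq : q ≠ 0) :
    ∃ x : ℝ, 0 ≤ x ∧ y = q * (1 + x) := by
  obtain ⟨a, b, ha, hb, hab, heq⟩ := h
  rw [smul_zero, zero_add, Complex.real_smul] at heq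
  have hb0 : b ≠ 0 := by
    rintro rfl
    rw [Complex.ofReal_zero, zero_mul] at heq
    exact hq heq.symm
  have hbpos : 0 < b := lt_of_le_of_ne hb (Ne.symm hb0)
  refine ⟨b⁻¹ - 1, ?_, ?_⟩
  · rw [sub_nonneg]
    exact (one_le_inv₀ hbpos).2 (by linarith)
  · have : (b : ℂ) ≠ 0 := by exact_mod_cast hb0
    rw [← heq]
    push_cast
    field_simp
    ring

theorem near (u : U) (hu : T.D u ∈ T.E) : ∃ V ∈ 𝓝 u, ∀ u₁ ∈ V, ∀ u₂ ∈ V, ∀ γ₁ γ₂,
    T.toCtx.Rad u₁ γ₁ → T.toCtx.Rad u₂ γ₂ → T.rel γ₁ γ₂ := by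
  by_cases h0 : T.D u = 0
  · -- over the cone point
    obtain ⟨g, _, hg⟩ := T.over_zero h0
    obtain ⟨r₁, hr₁, hr₁', hball⟩ := T.radius
    have hcont : ∀ᶠ u' in 𝓝 u, ‖T.D u'‖ < r₁ := by
      have := T.hB.cont.norm.continuousAt (x := u)
      refine this.eventually_lt_const ?_
      change ‖T.D u‖ < r₁
      rw [h0, norm_zero]
      exact hr₁
    have hN : ∀ᶠ u' in 𝓝 u, T.toCtx.inN g u' :=
      (T.toCtx.isOpen_inN g).mem_nhds (by rw [hg]; exact T.cone_self g)
    have key : ∀ u' γ', ‖T.D u'‖ < r₁ → T.toCtx.inN g u' → T.toCtx.Rad u' γ' → γ' = g := by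
      intro u' γ' h1 h2 h3
      have h4 : T.D u' ≠ 0 := by
        have := ((Ctx.Rad.mem_Cst T.toCtx h3).2 1).1
        rwa [T.toCtx.tau_one] at this
      exact Ctx.Rad.unique T.toCtx h3 (T.toCtx.rad_cone hr₁' hball h2 h4 h1)
    refine ⟨{u' | ‖T.D u'‖ < r₁ ∧ T.toCtx.inN g u'}, hcont.and hN, ?_⟩
    rintro u₁ ⟨h1, h2⟩ u₂ ⟨h3, h4⟩ γ₁ γ₂ h5 h6
    left
    rw [key u₁ γ₁ h1 h2 h5, key u₂ γ₂ h3 h4 h6]
  · by_cases hp : ∀ g, T.q₀ + T.tau g ∉ segment ℝ (0 : ℂ) (T.D u)
    · obtain ⟨γ, hγ⟩ := T.toCtx.exists_rad hu h0 hp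
      refine ⟨{u' | T.toCtx.Rad u' γ}, Ctx.Rad.nhds T.toCtx hγ, ?_⟩
      intro u₁ h1 u₂ h2 γ₁ γ₂ h3 h4
      left
      rw [Ctx.Rad.unique T.toCtx h3 h1, Ctx.Rad.unique T.toCtx h4 h2]
    · push Not at hp
      obtain ⟨g, hg⟩ := hp
      set q := T.q₀ + T.tau g with hqdef
      have hq0 : q ≠ 0 := T.toCtx.punct_ne g
      have hqE : q ∈ T.E := T.hEc.segment_subset T.h0 hu hg
      obtain ⟨x, hx, hy⟩ := on_ray hg hq0
      have hdiv : ∀ w : ℂ, q * (1 + w) / q - 1 = w := by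
        intro w
        field_simp
        ring
      rcases hx.eq_or_lt with rfl | hx
      · -- at the puncture
        have hDq : T.D u = q := by rw [hy]; simp
        obtain ⟨e, he, heD⟩ := T.toCtx.loc_of u (T.not_lattice hu h0)
        have hqt : q ∈ e.target := by
          rw [← hDq, ← heD u he]
          exact e.map_source he
        have hcw : Continuous (fun w : ℂ => q * (1 + w)) := by fun_prop
        have hop : IsOpen {w : ℂ | q * (1 + w) ∈ e.target} := e.open_target.preimage hcw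
        obtain ⟨δ₀, hδ₀, hb⟩ := Metric.isOpen_iff.1 hop 0 (by simpa using hqt)
        set δ := min δ₀ T.κ with hδ
        have hδpos : 0 < δ := lt_min hδ₀ T.hκ0
        set S : Set ℂ := {w : ℂ | ‖w‖ < δ ∧ (w.re < 0 ∨ w.im ≠ 0)} with hS
        have htar : ∀ w ∈ S, q * (1 + w) ∈ e.target := fun w hw =>
          hb (mem_ball_zero_iff.2 (hw.1.trans_le (min_le_left _ _)))
        set f : ℂ → U := fun w => e.symm (q * (1 + w)) with hf
        have hfc : ContinuousOn f S := e.continuousOn_symm.comp hcw.continuousOn htar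
        have hDf : ∀ w ∈ S, T.D (f w) = q * (1 + w) := by
          intro w hw
          rw [hf]
          change T.D (e.symm (q * (1 + w))) = _
          rw [← heD _ (e.map_target (htar w hw)), e.right_inv (htar w hw)]
        have hex : ∀ w ∈ S, ∃ γ, T.toCtx.Rad (f w) γ := by
          intro w hw
          have hwκ : ‖w‖ < T.κ := hw.1.trans_le (min_le_right _ _)
          refine T.toCtx.exists_rad_w hqE (w := w) ?_ hw.2 (hDf w hw) ?_
          · intro h1
            have h2 : w = -1 := by linear_combination h1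
            rw [h2, norm_neg, norm_one] at hwκ
            exact absurd hwκ (not_lt.2 T.hκ1.le)
          · rw [hDf w hw]
            refine T.hκE g hqE _ ?_
            have : q * (1 + w) - (T.q₀ + T.tau g) = q * w := by rw [← hqdef]; ring
            rw [this, norm_mul, mul_comm]
            exact mul_lt_mul_of_pos_right hwκ (norm_pos_iff.2 hq0)
        have hV : ∀ᶠ u' in 𝓝 u, u' ∈ e.source ∧ ‖T.D u' / q - 1‖ < δ := by
          refine Filter.Eventually.and
            (show ∀ᶠ u' in 𝓝 u, u' ∈ e.source from e.open_source.mem_nhds he) ?_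
          have hc : Continuous (fun u' => ‖T.D u' / q - 1‖) :=
            ((T.hB.cont.div_const q).sub continuous_const).norm
          refine hc.continuousAt.eventually_lt_const ?_
          change ‖T.D u / q - 1‖ < δ
          rw [hDq, div_self hq0, sub_self, norm_zero]
          exact hδpos
        have key : ∀ u', u' ∈ e.source → ‖T.D u' / q - 1‖ < δ → ∀ γ', T.toCtx.Rad u' γ' →
            (T.D u' / q - 1) ∈ S ∧ f (T.D u' / q - 1) = u' := by
          intro u' h1 h2 γ' h3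
          refine ⟨⟨h2, Rad.off_ray T h3 g⟩, ?_⟩
          have : q * (1 + (T.D u' / q - 1)) = T.D u' := by field_simp; ring
          rw [hf]
          change e.symm (q * (1 + (T.D u' / q - 1))) = u'
          rw [this, ← heD u' h1, e.left_inv h1]
        refine ⟨{u' | u' ∈ e.source ∧ ‖T.D u' / q - 1‖ < δ}, hV, ?_⟩
        rintro u₁ ⟨h1, h2⟩ u₂ ⟨h3, h4⟩ γ₁ γ₂ h5 h6
        obtain ⟨m1, n1⟩ := key u₁ h1 h2 γ₁ h5
        obtain ⟨m2, n2⟩ := key u₂ h3 h4 γ₂ h6
        have h7 := T.toCtx.rad_const (slit_preconnected hδpos) hfc hex m1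
          (by rw [n1]; exact h5) _ m2
        rw [n2] at h7
        exact Or.inl (Ctx.Rad.unique T.toCtx h7 h6)
      · -- behind the puncture
        set Cc : Set ℂ := {y | y ∈ T.E ∧ 0 < (y / q - 1).re} with hC
        have hCeq : Cc = T.E ∩ {y | 1 < (y / q).re} := by
          ext y
          simp only [hC, mem_ofPred_eq, mem_inter_iff, Complex.sub_re, Complex.one_re]
          constructor
          · rintro ⟨h1, h2⟩; exact ⟨h1, by linarith⟩
          · rintro ⟨h1, h2⟩; exact ⟨h1, by linarith⟩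
        have hlin : IsLinearMap ℝ (fun y : ℂ => (y / q).re) := by
          refine ⟨fun a b => ?_, fun c a => ?_⟩
          · rw [add_div, Complex.add_re]
          · rw [Complex.real_smul, mul_div_assoc, Complex.re_ofReal_mul, smul_eq_mul]
        have hCconv : Convex ℝ Cc := by
          rw [hCeq]
          exact T.hEc.inter (convex_halfSpace_gt hlin 1)
        have hCopen : IsOpen Cc := by
          rw [hCeq]
          exact T.hE.inter (isOpen_lt continuous_const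
            (Complex.continuous_re.comp (continuous_id.div_const q)))
        have hCC : Cc ⊆ T.toCtx.Cst := by
          intro y hy
          refine T.toCtx.mem_Cst ⟨hy.1, fun g' hg' => ?_⟩ ?_
          · have h1 := hy.2
            have h2 : T.q₀ + T.tau g' ∈ T.E := by rw [← hg']; exact hy.1
            rw [hg', T.toCtx.punct_unique h2 hqE, ← hqdef, div_self hq0, sub_self] at h1
            simp at h1
          · rintro rfl
            have h1 := hy.2
            simp at h1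
            linarith
        have huC : T.D u ∈ Cc := by
          refine ⟨hu, ?_⟩
          rw [hy, hdiv, Complex.ofReal_re]
          exact hx
        obtain ⟨s, hs, hsD, hsu⟩ := exists_section T.hcov hCopen hCconv
          (fun y hy => (hCC hy).2) huC
        obtain ⟨γ, γ', hrel, hup, hdn⟩ := T.two_sides hqE hs hsD
        have hV := sec_nhds hCopen T.hB.cont hs hsD huC hsu (T.toCtx.loc_of u (T.not_lattice hu h0))
        have key : ∀ u', T.D u' ∈ Cc → s (T.D u') = u' → ∀ γ'', T.toCtx.Rad u' γ'' →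
            γ'' = γ ∨ γ'' = γ' := by
          intro u' h1 h2 γ'' h3
          rcases Rad.off_ray T h3 g with h4 | h4
          · exact absurd h1.2 (not_lt.2 h4.le)
          · rcases lt_or_gt_of_ne h4 with h5 | h5
            · right
              have := hdn _ h1 h5
              rw [h2] at this
              exact Ctx.Rad.unique T.toCtx h3 this
            · left
              have := hup _ h1 h5
              rw [h2] at this
              exact Ctx.Rad.unique T.toCtx h3 this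
        refine ⟨{u' | T.D u' ∈ Cc ∧ s (T.D u') = u'}, hV, ?_⟩
        rintro u₁ ⟨h1, h2⟩ u₂ ⟨h3, h4⟩ γ₁ γ₂ h5 h6
        rcases key u₁ h1 h2 γ₁ h5 with rfl | rfl <;> rcases key u₂ h3 h4 γ₂ h6 with rfl | rfl
        · exact Or.inl rfl
        · exact T.rel_equivalence.symm hrel
        · exact hrel
        · exact Or.inl rfl

/-- points with values are dense -/
theorem dense_rad (u : U) (hu : T.D u ∈ T.E) (V : Set U) (hV : V ∈ 𝓝 u) :
    ∃ u₁ ∈ V, ∃ γ, T.toCtx.Rad u₁ γ := by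
  by_cases h0 : T.D u = 0
  · obtain ⟨g, hg0, hg⟩ := T.over_zero h0
    obtain ⟨r₁, hr₁, hr₁', hball⟩ := T.radius
    -- small positive parameters
    have hmem0 : (0 : ℂ) ∈ T.e.target := by rw [T.htarget]; exact Metric.mem_ball_self T.hρ
    have hc1 : Tendsto (fun t : ℝ => (t : ℂ)) (𝓝[>] 0) (𝓝 0) := by
      have := Complex.continuous_ofReal.tendsto 0
      rw [Complex.ofReal_zero] at this
      exact this.mono_left nhdsWithin_le_nhds
    have hc2 : Tendsto (fun t : ℝ => g • T.e.symm (t : ℂ)) (𝓝[>] 0) (𝓝 u) := by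
      have h1 : ContinuousAt T.e.symm 0 := T.e.symm.continuousAt hmem0
      have h2 : T.e.symm 0 = T.C₀ := by rw [← T.heC0, T.e.left_inv T.heC]
      have h3 : Tendsto (fun t : ℝ => T.e.symm (t : ℂ)) (𝓝[>] 0) (𝓝 T.C₀) := by
        rw [← h2]
        exact h1.tendsto.comp hc1
      rw [hg]
      exact ((T.hact g).tendsto T.C₀).comp h3
    have e1 : ∀ᶠ t : ℝ in 𝓝[>] 0, g • T.e.symm (t : ℂ) ∈ V := hc2.eventually_mem hV
    have e2 : ∀ᶠ t : ℝ in 𝓝[>] 0, (t : ℂ) ∈ T.e.target :=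
      hc1.eventually_mem (T.e.open_target.mem_nhds hmem0)
    have e3 : ∀ᶠ t : ℝ in 𝓝[>] 0, ‖T.D (g • T.e.symm (t : ℂ))‖ < r₁ := by
      have h1 : Tendsto (fun t : ℝ => ‖T.D (g • T.e.symm (t : ℂ))‖) (𝓝[>] 0) (𝓝 ‖T.D u‖) :=
        (T.hB.cont.norm.tendsto u).comp hc2
      refine h1.eventually_lt_const ?_
      rw [h0, norm_zero]
      exact hr₁
    have e4 : ∀ᶠ t : ℝ in 𝓝[>] 0, 0 < t := self_mem_nhdsWithin
    obtain ⟨t, k1, k2, k3, k4⟩ := (e1.and (e2.and (e3.and e4))).exists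
    refine ⟨_, k1, g, T.toCtx.rad_cone hr₁' hball ?_ ?_ k3⟩
    · unfold Ctx.inN
      rw [inv_smul_smul]
      exact T.e.map_target k2
    · rw [T.toCtx.D_smul, hg0, add_zero, ← T.hecube _ (T.e.map_target k2), T.e.right_inv k2]
      exact pow_ne_zero _ (by exact_mod_cast k4.ne')
  · by_cases hp : ∀ g, T.q₀ + T.tau g ∉ segment ℝ (0 : ℂ) (T.D u)
    · exact ⟨u, mem_of_mem_nhds hV, T.toCtx.exists_rad hu h0 hp⟩
    · push Not at hp
      obtain ⟨g, hg⟩ := hp
      set q := T.q₀ + T.tau g with hqdef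
      have hq0 : q ≠ 0 := T.toCtx.punct_ne g
      have hqE : q ∈ T.E := T.hEc.segment_subset T.h0 hu hg
      obtain ⟨x, hx, hy⟩ := on_ray hg hq0
      obtain ⟨e, he, heD⟩ := T.toCtx.loc_of u (T.not_lattice hu h0)
      have het : T.D u ∈ e.target := by
        rw [← heD u he]
        exact e.map_source he
      have hsym : e.symm (T.D u) = u := by rw [← heD u he, e.left_inv he]
      have hc1 : Tendsto (fun t : ℝ => q * (1 + (x + t * Complex.I))) (𝓝[>] 0) (𝓝 (T.D u)) := by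
        have hc : Continuous (fun t : ℝ => q * (1 + (x + t * Complex.I))) := by fun_prop
        have := hc.tendsto 0
        simp only [Complex.ofReal_zero, zero_mul, add_zero] at this
        rw [← hy] at this
        exact this.mono_left nhdsWithin_le_nhds
      have e1 : ∀ᶠ t : ℝ in 𝓝[>] 0, q * (1 + (x + t * Complex.I)) ∈ e.target :=
        hc1.eventually_mem (e.open_target.mem_nhds het)
      have e2 : ∀ᶠ t : ℝ in 𝓝[>] 0, q * (1 + (x + t * Complex.I)) ∈ T.E :=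
        hc1.eventually_mem (T.hE.mem_nhds hu)
      have e3 : ∀ᶠ t : ℝ in 𝓝[>] 0, e.symm (q * (1 + (x + t * Complex.I))) ∈ V := by
        have h1 := (e.symm.continuousAt het).tendsto
        rw [hsym] at h1
        exact (h1.comp hc1).eventually_mem hV
      have e4 : ∀ᶠ t : ℝ in 𝓝[>] 0, 0 < t := self_mem_nhdsWithin
      obtain ⟨t, k1, k2, k3, k4⟩ := (e1.and (e2.and (e3.and e4))).exists
      have hDe : T.D (e.symm (q * (1 + (x + t * Complex.I)))) = q * (1 + (x + t * Complex.I)) := by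
        rw [← heD _ (e.map_target k1), e.right_inv k1]
      refine ⟨_, k3, T.toCtx.exists_rad_w hqE (w := x + t * Complex.I) ?_ (Or.inr ?_) hDe
        (by rw [hDe]; exact k2)⟩
      · intro h1
        have := congrArg Complex.im h1
        simp at this
        exact k4.ne' this
      · simp
        exact k4.ne'

/-- the loop argument -/
theorem loop {u : U} {g : G} (p : Path u (g • u)) (hp : ∀ s, T.D (p s) ∈ T.E) :
    ∃ (h : G) (n : ℤ), g = h * chat ^ n * h⁻¹ := by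
  have hu : T.D u ∈ T.E := by
    have := hp 0
    rwa [p.source] at this
  have hgu : T.D (g • u) ∈ T.E := by
    have := hp 1
    rwa [p.target] at this
  have htg : T.tau g = 0 := T.hsmall _ hgu _ hu g (by rw [T.toCtx.D_smul]; ring)
  let P : unitInterval → Quotient T.setoid → Prop := fun s κ => ∃ V ∈ 𝓝 (p s), ∀ u₁ ∈ V, ∀ γ,
    T.toCtx.Rad u₁ γ → Quotient.mk T.setoid γ = κ
  have hex : ∀ s ∈ (univ : Set unitInterval), ∃ κ, P s κ := by
    intro s _
    obtain ⟨V, hV, h1⟩ := T.near (p s) (hp s)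
    obtain ⟨u₀, hu₀, γ₀, hγ₀⟩ := T.dense_rad (p s) (hp s) V hV
    exact ⟨Quotient.mk T.setoid γ₀, V, hV, fun u₁ hu₁ γ hγ =>
      Quotient.sound (s := T.setoid) (h1 u₁ hu₁ u₀ hu₀ γ γ₀ hγ hγ₀)⟩
  have hun : ∀ s ∈ (univ : Set unitInterval), ∀ κ κ', P s κ → P s κ' → κ = κ' := by
    rintro s _ κ κ' ⟨V, hV, h1⟩ ⟨V', hV', h1'⟩
    obtain ⟨u₀, hu₀, γ₀, hγ₀⟩ := T.dense_rad (p s) (hp s) (V ∩ V') (inter_mem hV hV')
    rw [← h1 u₀ hu₀.1 γ₀ hγ₀, h1' u₀ hu₀.2 γ₀ hγ₀]
  have hloc : ∀ s ∈ (univ : Set unitInterval), ∀ κ, P s κ → ∀ᶠ s' in 𝓝[univ] s, P s' κ := by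
    rintro s _ κ ⟨V, hV, h1⟩
    rw [nhdsWithin_univ]
    have h2 : ∀ᶠ u' in 𝓝 (p s), V ∈ 𝓝 u' := eventually_mem_nhds_iff.2 hV
    filter_upwards [p.continuous.continuousAt.eventually h2] with s' hs'
    exact ⟨V, hs', h1⟩
  obtain ⟨κ, hκ⟩ := hex 0 (mem_univ _)
  have hall := const_of_loc isPreconnected_univ P hex hun hloc (mem_univ (0 : unitInterval)) hκ
  obtain ⟨V₀, hV₀, h₀⟩ := hκ
  obtain ⟨V₁, hV₁, h₁⟩ := hall 1 (mem_univ _)
  rw [p.source] at hV₀
  rw [p.target] at hV₁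
  have hV₂ : (fun u' : U => g • u') ⁻¹' V₁ ∈ 𝓝 u := (T.hact g).continuousAt hV₁
  obtain ⟨u₁, hu₁, γ, hγ⟩ := T.dense_rad u hu _ (inter_mem hV₀ hV₂)
  have e1 := h₀ u₁ hu₁.1 γ hγ
  have e2 := h₁ (g • u₁) hu₁.2 (g * γ) (Ctx.Rad.smul T.toCtx hγ htg)
  have e3 : T.rel γ (g * γ) := Quotient.exact (s := T.setoid) (e1.trans e2.symm)
  rcases e3 with e3 | ⟨h, n, _, e3⟩
  · refine ⟨1, 0, ?_⟩
    have : g = 1 := by
      calc g = (g * γ) * γ⁻¹ := by group
        _ = γ * γ⁻¹ := by rw [← e3]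
        _ = 1 := by group
    rw [this]
    group
  · exact ⟨h, n, mul_right_cancel e3⟩

end Ctx2

section build

variable {U : Type} [TopologicalSpace U] [T2Space U] [MulAction G U] {D : U → ℂ} {tau : G → ℂ}
  {C₀ : U} {q₀ : ℂ}

omit [T2Space U] in
theorem tau_inv' (hB : BrData U D tau C₀ q₀) (g : G) : tau g⁻¹ = -tau g := by
  have h1 := hB.tau_mul 1 1
  rw [mul_one] at h1
  have h2 := hB.tau_mul g⁻¹ g
  rw [inv_mul_cancel] at h2
  linear_combination -h1 - h2

omit [T2Space U] in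
/-- a point outside of a coset of the lattice has a positive distance from it -/
theorem pos_dist (hB : BrData U D tau C₀ q₀) (x : ℂ) (hx : ∀ g, x ≠ tau g) :
    ∃ ε > 0, ∀ g, ε ≤ ‖x - tau g‖ := by
  obtain ⟨δ, hδ, hd⟩ := hB.disc
  by_cases h : ∃ g, ‖x - tau g‖ < δ / 2
  · obtain ⟨g, hg⟩ := h
    have hpos : 0 < ‖x - tau g‖ := norm_pos_iff.2 (sub_ne_zero.2 (hx g))
    refine ⟨min (‖x - tau g‖) (δ / 2), lt_min hpos (by positivity), fun g' => ?_⟩
    by_contra hcon
    push Not at hcon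
    have h1 : ‖x - tau g'‖ < δ / 2 := hcon.trans_le (min_le_right _ _)
    have h2 : tau (g' * g⁻¹) = (x - tau g) - (x - tau g') := by
      rw [hB.tau_mul, tau_inv' hB]; ring
    have h3 : tau (g' * g⁻¹) = 0 := by
      by_contra hne
      have h4 := hd _ hne
      have h5 : ‖tau (g' * g⁻¹)‖ ≤ ‖x - tau g‖ + ‖x - tau g'‖ := by
        rw [h2]; exact norm_sub_le _ _
      linarith
    have h4 : x - tau g' = x - tau g := by
      rw [h3] at h2
      linear_combination h2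
    rw [h4] at hcon
    exact absurd hcon (not_lt.2 (min_le_left _ _))
  · push Not at h
    exact ⟨δ / 2, by positivity, h⟩

omit [T2Space U] in
/-- the cone discs cover a neighbourhood of the fibre over `0` -/
theorem exists_cone (hact : ∀ g : G, Continuous (fun u : U => g • u))
    (hB : BrData U D tau C₀ q₀) : ∃ (e : OpenPartialHomeomorph U ℂ) (ρ r₀ : ℝ), C₀ ∈ e.source ∧
      e C₀ = 0 ∧ (∀ y ∈ e.source, (e y) ^ 3 = D y) ∧ 0 < ρ ∧ e.target = Metric.ball 0 ρ ∧
      (∀ g, tau g ≠ 0 → 2 * ρ ^ 3 ≤ ‖tau g‖) ∧ 0 < r₀ ∧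
      ∀ u, ‖D u‖ < r₀ → ∃ g, tau g = 0 ∧ g⁻¹ • u ∈ e.source := by
  obtain ⟨e₀, h1, h2, h3⟩ := hB.cone
  obtain ⟨δ, hδ, hd⟩ := hB.disc
  obtain ⟨ρ₀, hρ₀, hball⟩ := Metric.isOpen_iff.1 e₀.open_target 0
    (by rw [← h2]; exact e₀.map_source h1)
  set ρ := min ρ₀ (min 1 (δ / 2)) with hρdef
  have hρ : 0 < ρ := lt_min hρ₀ (lt_min one_pos (by positivity))
  have hρ1 : ρ ≤ 1 := (min_le_right _ _).trans (min_le_left _ _)
  have hρ2 : ρ ≤ δ / 2 := (min_le_right _ _).trans (min_le_right _ _)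
  have hρ3 : ρ ^ 3 ≤ ρ := by
    have : ρ ^ 3 = ρ ^ 2 * ρ := by ring
    rw [this]
    have h4 : ρ ^ 2 ≤ 1 := pow_le_one₀ hρ.le hρ1
    nlinarith
  set e : OpenPartialHomeomorph U ℂ :=
    (e₀.symm.restrOpen (Metric.ball 0 ρ) Metric.isOpen_ball).symm with hedef
  have hsource : ∀ y, y ∈ e.source ↔ y ∈ e₀.source ∧ e₀ y ∈ Metric.ball (0 : ℂ) ρ := by
    intro y
    simp [hedef]
  have hcoe : ∀ y, e y = e₀ y := fun y => rfl
  have htarget : e.target = Metric.ball 0 ρ := by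
    simp only [hedef, OpenPartialHomeomorph.symm_target, OpenPartialHomeomorph.restrOpen_source,
      OpenPartialHomeomorph.symm_source]
    rw [inter_eq_right]
    exact (Metric.ball_subset_ball (min_le_left _ _)).trans hball
  have hC : C₀ ∈ e.source := by
    rw [hsource]
    refine ⟨h1, ?_⟩
    rw [h2]
    exact Metric.mem_ball_self hρ
  have hcube : ∀ y ∈ e.source, (e y) ^ 3 = D y := by
    intro y hy
    rw [hcoe]
    exact h3 y ((hsource y).1 hy).1
  have hρδ : ∀ g, tau g ≠ 0 → 2 * ρ ^ 3 ≤ ‖tau g‖ := by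
    intro g hg
    have := hd g hg
    linarith
  -- compactness
  obtain ⟨η, hη, hηd⟩ : ∃ η > 0, ∀ g, η ≤ ‖q₀ + tau g‖ := by
    obtain ⟨ε, hε, h4⟩ := pos_dist hB q₀ hB.puncture
    refine ⟨ε, hε, fun g => ?_⟩
    have := h4 g⁻¹
    rwa [tau_inv' hB, sub_neg_eq_add] at this
  obtain ⟨Kc, hKc, hKcov⟩ := hB.cpt (η / 2) (by positivity)
  have hlocal : ∀ v ∈ Kc, ∃ V ∈ 𝓝 v, ∃ ε > 0, ∀ w ∈ V, ∀ h, ‖D w - tau h‖ < ε →
      ∃ g : G, g⁻¹ • w ∈ e.source := by
    intro v _
    by_cases hv : ∃ g, D v = tau g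
    · obtain ⟨g, hg⟩ := hv
      obtain ⟨g', hg'⟩ := hB.fib v g hg
      refine ⟨{w | g'⁻¹ • w ∈ e.source}, (e.open_source.preimage (hact g'⁻¹)).mem_nhds ?_, 1,
        one_pos, fun w hw _ _ => ⟨g', hw⟩⟩
      change g'⁻¹ • v ∈ e.source
      rw [hg', inv_smul_smul]
      exact hC
    · push Not at hv
      obtain ⟨ε, hε, h4⟩ := pos_dist hB (D v) hv
      refine ⟨{w | ‖D w - D v‖ < ε / 2}, ?_, ε / 2, by positivity, fun w hw h hwh => ?_⟩
      · have hc : Continuous (fun w => ‖D w - D v‖) := (hB.cont.sub continuous_const).norm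
        refine hc.continuousAt.eventually_lt_const ?_
        change ‖D v - D v‖ < ε / 2
        rw [sub_self, norm_zero]
        positivity
      · exfalso
        have h5 := h4 h
        have h6 : D v - tau h = (D w - tau h) - (D w - D v) := by ring
        have h7 : ‖D v - tau h‖ ≤ ‖D w - tau h‖ + ‖D w - D v‖ := by
          rw [h6]; exact norm_sub_le _ _
        have h8 : ‖D w - D v‖ < ε / 2 := hw
        linarith
  choose! V hV ε hε hVε using hlocal
  obtain ⟨t, ht1, ht2⟩ := hKc.elim_nhds_subcover V hV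
  obtain ⟨ε', hε', hmin⟩ : ∃ ε' > 0, ∀ v ∈ t, ε' ≤ ε v := by
    by_cases hne : t.Nonempty
    · obtain ⟨v, hv, hvm⟩ := t.exists_min_image ε hne
      exact ⟨ε v, hε v (ht1 v hv), hvm⟩
    · rw [Finset.not_nonempty_iff_eq_empty] at hne
      exact ⟨1, one_pos, by simp [hne]⟩
  have hρ3pos : 0 < ρ ^ 3 := pow_pos hρ 3
  refine ⟨e, ρ, min (η / 2) (min ε' (ρ ^ 3)), hC, by rw [hcoe, h2], hcube, hρ, htarget, hρδ,
    lt_min (by positivity) (lt_min hε' hρ3pos), fun u hu => ?_⟩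
  have hu1 : ‖D u‖ < η / 2 := hu.trans_le (min_le_left _ _)
  have hu2 : ‖D u‖ < ε' := hu.trans_le ((min_le_right _ _).trans (min_le_left _ _))
  have hu3 : ‖D u‖ < ρ ^ 3 := hu.trans_le ((min_le_right _ _).trans (min_le_right _ _))
  obtain ⟨h, hh⟩ := hKcov u (fun g => by
    have h4 := hηd g
    have h5 : q₀ + tau g = D u - (D u - (q₀ + tau g)) := by ring
    have h6 : ‖q₀ + tau g‖ ≤ ‖D u‖ + ‖D u - (q₀ + tau g)‖ := by
      conv_lhs => rw [h5]
      exact norm_sub_le _ _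
    linarith)
  obtain ⟨v, hv, hvV⟩ := mem_iUnion₂.1 (ht2 hh)
  have h4 : ‖D (h • u) - tau h‖ < ε v := by
    rw [hB.equiv, add_sub_cancel_right]
    exact hu2.trans_le (hmin v hv)
  obtain ⟨g, hg⟩ := hVε v (ht1 v hv) _ hvV h h4
  refine ⟨h⁻¹ * g, ?_, ?_⟩
  · by_contra hne
    have h5 := hρδ _ hne
    have h6 : ‖D (g⁻¹ • h • u)‖ < ρ ^ 3 := by
      have h7 : e (g⁻¹ • h • u) ∈ Metric.ball (0 : ℂ) ρ := by
        rw [← htarget]; exact e.map_source hg
      rw [mem_ball_zero_iff] at h7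
      rw [← hcube _ hg, norm_pow]
      exact pow_lt_pow_left₀ h7 (norm_nonneg _) three_ne_zero
    have h8 : tau (h⁻¹ * g) = D u - D (g⁻¹ • h • u) := by
      rw [hB.equiv, hB.equiv, hB.tau_mul, tau_inv' hB, tau_inv' hB]
      ring
    have h9 : ‖tau (h⁻¹ * g)‖ ≤ ‖D u‖ + ‖D (g⁻¹ • h • u)‖ := by
      rw [h8]; exact norm_sub_le _ _
    linarith
  · rw [mul_inv_rev, inv_inv, mul_smul]
    exact hg

omit [T2Space U] in
theorem exists_kappa (hB : BrData U D tau C₀ q₀) {E : Set ℂ} (hE : IsOpen E)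
    (hsmall : ∀ x ∈ E, ∀ y ∈ E, ∀ g, x - y = tau g → tau g = 0) {r : ℝ} (hr : 0 < r) :
    ∃ κ : ℝ, 0 < κ ∧ κ < 1 ∧
      (∀ g, q₀ + tau g ∈ E → ∀ y, ‖y - (q₀ + tau g)‖ < κ * ‖q₀ + tau g‖ → y ∈ E) ∧
      (∀ g, q₀ + tau g ∈ E → κ * ‖q₀ + tau g‖ ≤ r) := by
  by_cases h : ∃ g, q₀ + tau g ∈ E
  · obtain ⟨g₀, hg₀⟩ := h
    have huniq : ∀ g, q₀ + tau g ∈ E → q₀ + tau g = q₀ + tau g₀ := by
      intro g hg
      have h1 := hsmall _ hg _ hg₀ (g * g₀⁻¹) (by rw [hB.tau_mul, tau_inv' hB]; ring)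
      rw [hB.tau_mul, tau_inv' hB] at h1
      linear_combination h1
    set q := q₀ + tau g₀ with hq
    have hq0 : q ≠ 0 := by
      intro h0
      apply hB.puncture g₀⁻¹
      rw [tau_inv' hB]
      linear_combination h0
    have hqpos : 0 < ‖q‖ := norm_pos_iff.2 hq0
    obtain ⟨ε, hε, hb⟩ := Metric.isOpen_iff.1 hE q hg₀
    have hmin : 0 < min ε r := lt_min hε hr
    refine ⟨min (1 / 2) (min ε r / ‖q‖), lt_min (by norm_num) (by positivity),
      (min_le_left _ _).trans_lt (by norm_num), ?_, ?_⟩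
    · intro g hg y hy
      rw [huniq g hg] at hy
      apply hb
      rw [mem_ball_iff_norm]
      refine hy.trans_le ?_
      calc min (1 / 2) (min ε r / ‖q‖) * ‖q‖ ≤ (min ε r / ‖q‖) * ‖q‖ :=
            mul_le_mul_of_nonneg_right (min_le_right _ _) hqpos.le
        _ = min ε r := div_mul_cancel₀ _ hqpos.ne'
        _ ≤ ε := min_le_left _ _
    · intro g hg
      rw [huniq g hg]
      calc min (1 / 2) (min ε r / ‖q‖) * ‖q‖ ≤ (min ε r / ‖q‖) * ‖q‖ :=
            mul_le_mul_of_nonneg_right (min_le_right _ _) hqpos.le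
        _ = min ε r := div_mul_cancel₀ _ hqpos.ne'
        _ ≤ r := min_le_right _ _
  · push Not at h
    exact ⟨1 / 2, by norm_num, by norm_num, fun g hg => absurd hg (h g),
      fun g hg => absurd hg (h g)⟩

/-- the case of a neighbourhood of `0` -/
theorem tl_zero (hcov : IsCoveringMapOn D {y | ∀ g, y ≠ tau g ∧ y ≠ q₀ + tau g})
    (hact : ∀ g : G, Continuous (fun u : U => g • u)) (hfree : ∀ (g : G) (u : U), g • u = u → g = 1)
    (hB : BrData U D tau C₀ q₀) {E : Set ℂ} (hE : IsOpen E) (hEc : Convex ℝ E) (h0 : (0 : ℂ) ∈ E)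
    (hsmall : ∀ x ∈ E, ∀ y ∈ E, ∀ g, x - y = tau g → tau g = 0) {u : U} {g : G}
    (p : Path u (g • u)) (hp : ∀ s, D (p s) ∈ E) : ∃ (h : G) (n : ℤ), g = h * chat ^ n * h⁻¹ := by
  obtain ⟨e, ρ, r₀, heC, heC0, hecube, hρ, htarget, hρδ, hr₀, hcone⟩ := exists_cone hact hB
  obtain ⟨r, j, hr, hj, hjD, hj1, hcls⟩ := hB.punct
  obtain ⟨κ, hκ0, hκ1, hκE, hκr⟩ := exists_kappa hB hE hsmall hr
  let T : Ctx2 U :=
    { D := D, tau := tau, C₀ := C₀, q₀ := q₀, E := E, hact := hact, hfree := hfree, hB := hB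
      hcov := hcov, hE := hE, hEc := hEc, h0 := h0, hsmall := hsmall, e := e, heC := heC
      heC0 := heC0, hecube := hecube, ρ := ρ, hρ := hρ, htarget := htarget, hρδ := hρδ, r₀ := r₀
      hr₀ := hr₀, hcone := hcone, r := r, j := j, hr := hr, hj := hj, hjD := hjD, hj1 := hj1
      hcls := hcls, κ := κ, hκ0 := hκ0, hκ1 := hκ1, hκE := hκE, hκr := hκr }
  exact T.loop p hp

end build

end TLAux

open TLAux in
theorem stmt_TL (hCov : Stmt_Cov) : Stmt_TL := by
  intro U _ _ _ D tau C₀ q₀ hact hfree hB E hE hEc hgE hsmall u g p hp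
  obtain ⟨g₀, hg₀⟩ := hgE
  have hcov := hCov U D tau C₀ q₀ hact hB
  -- translation by `g₀`
  set E' : Set ℂ := {y | y + tau g₀ ∈ E} with hE'
  have hE'o : IsOpen E' := hE.preimage (continuous_id.add continuous_const)
  have hE'c : Convex ℝ E' := by
    intro x hx y hy a b ha hb hab
    have h1 := hEc hx hy ha hb hab
    change a • x + b • y + tau g₀ ∈ E
    have : a • x + b • y + tau g₀ = a • (x + tau g₀) + b • (y + tau g₀) := by
      rw [smul_add, smul_add]
      have h2 : tau g₀ = a • tau g₀ + b • tau g₀ := by rw [← add_smul, hab, one_smul]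
      calc a • x + b • y + tau g₀ = a • x + b • y + (a • tau g₀ + b • tau g₀) := by rw [← h2]
        _ = _ := by abel
    rw [this]
    exact h1
  have h0 : (0 : ℂ) ∈ E' := by
    change 0 + tau g₀ ∈ E
    rwa [zero_add]
  have hsmall' : ∀ x ∈ E', ∀ y ∈ E', ∀ g, x - y = tau g → tau g = 0 := by
    intro x hx y hy g hg
    exact hsmall _ hx _ hy g (by rw [← hg]; ring)
  have hend : g₀⁻¹ • (g • u) = (g₀⁻¹ * g * g₀) • (g₀⁻¹ • u) := by
    rw [← mul_smul, ← mul_smul]
    congr 1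
    group
  let p' : Path (g₀⁻¹ • u) ((g₀⁻¹ * g * g₀) • (g₀⁻¹ • u)) :=
    (p.map (hact g₀⁻¹)).cast rfl hend.symm
  have hp' : ∀ s, D (p' s) ∈ E' := by
    intro s
    change D (g₀⁻¹ • p s) + tau g₀ ∈ E
    have : D (g₀⁻¹ • p s) + tau g₀ = D (p s) := by
      rw [hB.equiv, tau_inv' hB]; ring
    rw [this]
    exact hp s
  obtain ⟨h, n, hn⟩ := tl_zero hcov hact hfree hB hE'o hE'c h0 hsmall' p' hp'
  refine ⟨g₀ * h, n, ?_⟩
  have : g = g₀ * (g₀⁻¹ * g * g₀) * g₀⁻¹ := by group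
  rw [this, hn]
  group

end Pool.Agent.CircleShift
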