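import Pool.Agent.Work.MP_0fc146_gt_h31.Interface

/-!
# Block TL, part 1: uniqueness of lifts, cone discs, values of the locally constant function
-/

noncomputable section

open scoped Topology UpperHalfPlane
open Filter Set

namespace Pool.Agent.CircleShift

namespace TLAux

section gen

variable {U : Type} [TopologicalSpace U] [T2Space U] {D : U → ℂ}

/-- uniqueness of lifts on preconnected sets -/
theorem lift_unique {X : Type} [TopologicalSpace X] {S : Set X} (hS : IsPreconnected S)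
    {f g : X → U} (hf : ContinuousOn f S) (hg : ContinuousOn g S)
    (hfg : ∀ x ∈ S, D (f x) = D (g x))
    (loc : ∀ x ∈ S, ∃ e : OpenPartialHomeomorph U ℂ, f x ∈ e.source ∧ ∀ y ∈ e.source, e y = D y)
    {x₀ : X} (hx₀ : x₀ ∈ S) (h : f x₀ = g x₀) : ∀ x ∈ S, f x = g x := by
  have hconn : PreconnectedSpace S := Subtype.preconnectedSpace hS
  have c1 : Continuous (fun z : S => f z) := continuousOn_iff_continuous_domRestrict.1 hf
  have c2 : Continuous (fun z : S => g z) := continuousOn_iff_continuous_domRestrict.1 hg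
  have hclosed : IsClosed {y : S | f y = g y} := isClosed_eq c1 c2
  have hopen : IsOpen {y : S | f y = g y} := by
    rw [isOpen_iff_mem_nhds]
    intro y hy
    have hy' : f y = g y := hy
    obtain ⟨e, he, heD⟩ := loc y y.2
    have n1 : ∀ᶠ z : S in 𝓝 y, f z ∈ e.source :=
      c1.continuousAt.eventually_mem (e.open_source.mem_nhds he)
    have n2 : ∀ᶠ z : S in 𝓝 y, g z ∈ e.source :=
      c2.continuousAt.eventually_mem (e.open_source.mem_nhds (by rw [← hy']; exact he))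
    filter_upwards [n1, n2] with z h1 h2
    apply e.injOn h1 h2
    rw [heD _ h1, heD _ h2, hfg z z.2]
  have huniv := IsClopen.eq_univ (show IsClopen _ from ⟨hclosed, hopen⟩) ⟨⟨x₀, hx₀⟩, h⟩
  intro y hy
  have : (⟨y, hy⟩ : S) ∈ {y : S | f y = g y} := by
    rw [huniv]; trivial
  exact this

/-- a relation with unique, locally constant values is constant on preconnected sets -/
theorem const_of_loc {X Y : Type} [TopologicalSpace X] {S : Set X} (hS : IsPreconnected S)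
    (P : X → Y → Prop) (hex : ∀ x ∈ S, ∃ y, P x y) (hun : ∀ x ∈ S, ∀ y y', P x y → P x y' → y = y')
    (hloc : ∀ x ∈ S, ∀ y, P x y → ∀ᶠ x' in 𝓝[S] x, P x' y) {x₀ : X} (hx₀ : x₀ ∈ S) {y₀ : Y}
    (h₀ : P x₀ y₀) : ∀ x ∈ S, P x y₀ := by
  have hconn : PreconnectedSpace S := Subtype.preconnectedSpace hS
  have key : ∀ y : Y, IsOpen {x : S | P x y} := by
    intro y
    rw [isOpen_iff_mem_nhds]
    intro x hx
    have := hloc x x.2 y hx
    rw [nhdsWithin_eq_map_subtype_coe x.2] at this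
    exact this
  have hclosed : IsClosed {x : S | P x y₀} := by
    rw [← isOpen_compl_iff]
    have : {x : S | P x y₀}ᶜ = ⋃ y ∈ {y : Y | y ≠ y₀}, {x : S | P x y} := by
      ext x
      simp only [mem_compl_iff, mem_ofPred_eq, mem_iUnion, exists_prop]
      constructor
      · intro hx
        obtain ⟨y, hy⟩ := hex x x.2
        exact ⟨y, fun h => hx (h ▸ hy), hy⟩
      · rintro ⟨y, hy, hxy⟩ hx
        exact hy (hun x x.2 _ _ hxy hx)
    rw [this]
    exact isOpen_biUnion fun y _ => key y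
  have huniv := IsClopen.eq_univ (show IsClopen _ from ⟨hclosed, key y₀⟩) ⟨⟨x₀, hx₀⟩, h₀⟩
  intro y hy
  have : (⟨y, hy⟩ : S) ∈ {x : S | P x y₀} := by
    rw [huniv]; trivial
  exact this

omit [T2Space U] in
/-- sections of `D` through `u` parametrise a neighbourhood of `u` -/
theorem sec_nhds {A : Set ℂ} (hA : IsOpen A) {s : ℂ → U} (hD : Continuous D)
    (hs : ContinuousOn s A) (hsD : ∀ y ∈ A, D (s y) = y) {u : U} (hu : D u ∈ A)
    (hsu : s (D u) = u)
    (loc : ∃ e : OpenPartialHomeomorph U ℂ, u ∈ e.source ∧ ∀ y ∈ e.source, e y = D y) :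
    ∀ᶠ u' in 𝓝 u, D u' ∈ A ∧ s (D u') = u' := by
  obtain ⟨e, he, heD⟩ := loc
  have h1 : ∀ᶠ u' in 𝓝 u, D u' ∈ A := hD.continuousAt.eventually_mem (hA.mem_nhds hu)
  have hc : ContinuousAt (fun u' => s (D u')) u :=
    ContinuousAt.comp (f := D) (g := s) (hs.continuousAt (hA.mem_nhds hu)) hD.continuousAt
  have h2 : ∀ᶠ u' in 𝓝 u, s (D u') ∈ e.source :=
    hc.eventually_mem (e.open_source.mem_nhds (by rw [hsu]; exact he))
  have h3 : ∀ᶠ u' in 𝓝 u, u' ∈ e.source := e.open_source.mem_nhds he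
  filter_upwards [h1, h2, h3] with u' k1 k2 k3
  refine ⟨k1, e.injOn k2 k3 ?_⟩
  rw [heD _ k2, heD _ k3, hsD _ k1]

omit [T2Space U] in
/-- sections over convex open sets -/
theorem exists_section {Ω A : Set ℂ} (hcov : IsCoveringMapOn D Ω) (hA : IsOpen A)
    (hAc : Convex ℝ A) (hAΩ : A ⊆ Ω) {u : U} (hu : D u ∈ A) :
    ∃ s : ℂ → U, ContinuousOn s A ∧ (∀ y ∈ A, D (s y) = y) ∧ s (D u) = u := by
  classical
  have : ContractibleSpace A := hAc.contractibleSpace ⟨_, hu⟩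
  have : LocallyPathConnectedSpace A := hA.locallyPathConnectedSpace
  obtain ⟨F, ⟨hF1, hF2⟩, _⟩ := hcov.existsUnique_continuousMap_lifts
    (⟨Subtype.val, continuous_subtype_val⟩ : C(A, ℂ)) (a₀ := ⟨D u, hu⟩) (e₀ := u) rfl
    (fun a => hAΩ a.2)
  refine ⟨fun y => if h : y ∈ A then F ⟨y, h⟩ else u, ?_, fun y hy => ?_, ?_⟩
  · rw [continuousOn_iff_continuous_domRestrict]
    have : A.domRestrict (fun y => if h : y ∈ A then F ⟨y, h⟩ else u) = F := by
      funext y
      simp [Set.domRestrict]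
    rw [this]
    exact F.continuous
  · simp only [hy, dif_pos]
    exact congrFun hF2 ⟨y, hy⟩
  · simp only [hu, dif_pos]
    exact hF1

end gen

/-- the data, normalised so that the lattice point is `0` -/
structure Ctx (U : Type) [TopologicalSpace U] [MulAction G U] where
  D : U → ℂ
  tau : G → ℂ
  C₀ : U
  q₀ : ℂ
  E : Set ℂ
  hact : ∀ g : G, Continuous (fun u : U => g • u)
  hfree : ∀ (g : G) (u : U), g • u = u → g = 1
  hB : BrData U D tau C₀ q₀
  hcov : IsCoveringMapOn D {y | ∀ g, y ≠ tau g ∧ y ≠ q₀ + tau g}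
  hE : IsOpen E
  hEc : Convex ℝ E
  h0 : (0 : ℂ) ∈ E
  hsmall : ∀ x ∈ E, ∀ y ∈ E, ∀ g, x - y = tau g → tau g = 0
  e : OpenPartialHomeomorph U ℂ
  heC : C₀ ∈ e.source
  heC0 : e C₀ = 0
  hecube : ∀ y ∈ e.source, (e y) ^ 3 = D y
  ρ : ℝ
  hρ : 0 < ρ
  htarget : e.target = Metric.ball 0 ρ
  hρδ : ∀ g, tau g ≠ 0 → 2 * ρ ^ 3 ≤ ‖tau g‖
  r₀ : ℝ
  hr₀ : 0 < r₀
  hcone : ∀ u, ‖D u‖ < r₀ → ∃ g, tau g = 0 ∧ g⁻¹ • u ∈ e.source

namespace Ctx

variable {U : Type} [TopologicalSpace U] [T2Space U] [MulAction G U] (T : Ctx U)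

omit [T2Space U] in
theorem tau_one : T.tau 1 = 0 := by
  have := T.hB.tau_mul 1 1
  rw [mul_one] at this
  simpa using this

omit [T2Space U] in
theorem tau_inv (g : G) : T.tau g⁻¹ = -T.tau g := by
  have := T.hB.tau_mul g⁻¹ g
  rw [inv_mul_cancel, T.tau_one] at this
  linear_combination -this

omit [T2Space U] in
theorem tau_mul (g h : G) : T.tau (g * h) = T.tau g + T.tau h := T.hB.tau_mul g h

omit [T2Space U] in
theorem D_smul (g : G) (u : U) : T.D (g • u) = T.D u + T.tau g := T.hB.equiv g u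

omit [T2Space U] in
theorem D_cone (g : G) : T.D (g • T.C₀) = T.tau g := by
  rw [T.D_smul, T.hB.zero, zero_add]

omit [T2Space U] in
theorem loc_of (u : U) (h : ∀ g, T.D u ≠ T.tau g) : ∃ e : OpenPartialHomeomorph U ℂ,
    u ∈ e.source ∧ ∀ y ∈ e.source, e y = T.D y :=
  T.hB.loc u fun g hg => h g (by rw [hg, T.D_cone])

/-- `u` is in the cone disc of `γ` -/
def inN (γ : G) (u : U) : Prop := γ⁻¹ • u ∈ T.e.source

omit [T2Space U] in
theorem isOpen_inN (γ : G) : IsOpen {u | T.inN γ u} := T.e.open_source.preimage (T.hact γ⁻¹)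

omit [T2Space U] in
theorem norm_D_lt {x : U} (hx : x ∈ T.e.source) : ‖T.D x‖ < T.ρ ^ 3 := by
  have h1 : T.e x ∈ Metric.ball (0 : ℂ) T.ρ := by rw [← T.htarget]; exact T.e.map_source hx
  rw [mem_ball_zero_iff] at h1
  rw [← T.hecube x hx, norm_pow]
  exact pow_lt_pow_left₀ h1 (norm_nonneg _) three_ne_zero

/-- the radial path -/
def rad (x : U) (t : ℝ) : U := T.e.symm ((t : ℂ) * T.e x)

omit [T2Space U] in
theorem rad_mem {x : U} (hx : x ∈ T.e.source) {t : ℝ} (h0 : 0 ≤ t) (h1 : t ≤ 1) :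
    (t : ℂ) * T.e x ∈ T.e.target := by
  have h2 : T.e x ∈ Metric.ball (0 : ℂ) T.ρ := by rw [← T.htarget]; exact T.e.map_source hx
  rw [mem_ball_zero_iff] at h2
  rw [T.htarget, mem_ball_zero_iff, norm_mul, Complex.norm_real, Real.norm_of_nonneg h0]
  calc t * ‖T.e x‖ ≤ 1 * ‖T.e x‖ := mul_le_mul_of_nonneg_right h1 (norm_nonneg _)
    _ < T.ρ := by rw [one_mul]; exact h2

omit [T2Space U] in
theorem D_rad {x : U} (hx : x ∈ T.e.source) {t : ℝ} (h0 : 0 ≤ t) (h1 : t ≤ 1) :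
    T.D (T.rad x t) = (t : ℂ) ^ 3 * T.D x := by
  rw [rad, ← T.hecube _ (T.e.map_target (T.rad_mem hx h0 h1)),
    T.e.right_inv (T.rad_mem hx h0 h1), ← T.hecube x hx, mul_pow]

omit [T2Space U] in
theorem rad_one {x : U} (hx : x ∈ T.e.source) : T.rad x 1 = x := by
  rw [rad, Complex.ofReal_one, one_mul, T.e.left_inv hx]

omit [T2Space U] in
theorem rad_zero {x : U} : T.rad x 0 = T.C₀ := by
  rw [rad, Complex.ofReal_zero, zero_mul, ← T.heC0, T.e.left_inv T.heC]

omit [T2Space U] in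
theorem rad_cont {x : U} (hx : x ∈ T.e.source) : ContinuousOn (T.rad x) (Icc 0 1) := by
  refine T.e.continuousOn_symm.comp (f := fun t : ℝ => (t : ℂ) * T.e x) ?_ ?_
  · exact (Complex.continuous_ofReal.mul continuous_const).continuousOn
  · intro t ht
    exact T.rad_mem hx ht.1 ht.2

theorem N_disj {x : U} (hx : x ∈ T.e.source) {h : G} (hhx : h • x ∈ T.e.source) : h = 1 := by
  have n1 := T.norm_D_lt hx
  have n2 := T.norm_D_lt hhx
  have htau : T.tau h = 0 := by
    by_contra hne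
    have h1 := T.hρδ h hne
    have h2 : T.tau h = T.D (h • x) - T.D x := by rw [T.D_smul]; ring
    have h3 : ‖T.tau h‖ ≤ ‖T.D (h • x)‖ + ‖T.D x‖ := by rw [h2]; exact norm_sub_le _ _
    linarith
  have hDeq : T.D (h • x) = T.D x := by rw [T.D_smul, htau, add_zero]
  by_cases hD : T.D x = 0
  · have e1 : ∀ y ∈ T.e.source, T.D y = 0 → y = T.C₀ := by
      intro y hy hy0
      apply T.e.injOn hy T.heC
      rw [T.heC0]
      have := T.hecube y hy
      rw [hy0] at this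
      exact pow_eq_zero_iff three_ne_zero |>.1 this
    have e2 := e1 x hx hD
    have e3 := e1 _ hhx (by rw [hDeq, hD])
    rw [e2] at e3
    exact T.hfree h T.C₀ e3
  · have hcontf : ContinuousOn (fun t : ℝ => h • T.rad x t) (Icc 0 1) :=
      (T.hact h).comp_continuousOn (T.rad_cont hx)
    have hcontg := T.rad_cont hhx
    have key : ∀ t ∈ Ioc (0 : ℝ) 1, h • T.rad x t = T.rad (h • x) t := by
      refine lift_unique (D := T.D) (isPreconnected_Ioc (a := (0 : ℝ)) (b := 1))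
        (hcontf.mono Ioc_subset_Icc_self) (hcontg.mono Ioc_subset_Icc_self) ?_ ?_
        (x₀ := 1) ⟨zero_lt_one, le_rfl⟩ ?_
      · intro t ht
        rw [T.D_smul, htau, add_zero, T.D_rad hx ht.1.le ht.2, T.D_rad hhx ht.1.le ht.2, hDeq]
      · intro t ht
        refine T.loc_of _ fun g hg => ?_
        rw [T.D_smul, htau, add_zero, T.D_rad hx ht.1.le ht.2] at hg
        have hne : T.tau g ≠ 0 := by
          rw [← hg]
          exact mul_ne_zero (pow_ne_zero _ (by exact_mod_cast ht.1.ne')) hD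
        have h1 := T.hρδ g hne
        rw [← hg, norm_mul, norm_pow, Complex.norm_real, Real.norm_of_nonneg ht.1.le] at h1
        have h2 : t ^ 3 ≤ 1 := pow_le_one₀ ht.1.le ht.2
        have h3 : t ^ 3 * ‖T.D x‖ ≤ 1 * ‖T.D x‖ := mul_le_mul_of_nonneg_right h2 (norm_nonneg _)
        have h4 := pow_pos T.hρ 3
        linarith
      · simp only [T.rad_one hx, T.rad_one hhx]
    have l1 : Tendsto (fun t : ℝ => h • T.rad x t) (𝓝[>] 0) (𝓝 (h • T.C₀)) := by
      have := (hcontf 0 ⟨le_rfl, zero_le_one⟩).tendsto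
      simp only [T.rad_zero] at this
      refine this.mono_left ?_
      rw [← nhdsWithin_Ioc_eq_nhdsGT (zero_lt_one (α := ℝ))]
      exact nhdsWithin_mono _ Ioc_subset_Icc_self
    have l2 : Tendsto (fun t : ℝ => T.rad (h • x) t) (𝓝[>] 0) (𝓝 T.C₀) := by
      have := (hcontg 0 ⟨le_rfl, zero_le_one⟩).tendsto
      rw [T.rad_zero] at this
      refine this.mono_left ?_
      rw [← nhdsWithin_Ioc_eq_nhdsGT (zero_lt_one (α := ℝ))]
      exact nhdsWithin_mono _ Ioc_subset_Icc_self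
    have l3 : (fun t : ℝ => h • T.rad x t) =ᶠ[𝓝[>] 0] fun t => T.rad (h • x) t := by
      have : Ioc (0 : ℝ) 1 ∈ 𝓝[>] (0 : ℝ) := Ioc_mem_nhdsGT zero_lt_one
      filter_upwards [this] with t ht using key t ht
    exact T.hfree h T.C₀ (tendsto_nhds_unique (l1.congr' l3) l2)

theorem inN_unique {γ γ' : G} {u : U} (h : T.inN γ u) (h' : T.inN γ' u) : γ = γ' := by
  have h1 : (γ'⁻¹ * γ) • (γ⁻¹ • u) ∈ T.e.source := by
    rw [← mul_smul, mul_assoc, mul_inv_cancel, mul_one]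
    exact h'
  have h2 := T.N_disj h h1
  exact (inv_mul_eq_one.1 h2).symm

/-- a connected set over a small disc stays in one cone disc -/
theorem inN_const {X : Type} [TopologicalSpace X] {S : Set X} (hS : IsPreconnected S)
    {f : X → U} (hf : ContinuousOn f S) (hD : ∀ x ∈ S, ‖T.D (f x)‖ < T.r₀) {x₀ : X}
    (hx₀ : x₀ ∈ S) {γ : G} (h : T.inN γ (f x₀)) : ∀ x ∈ S, T.inN γ (f x) := by
  refine const_of_loc hS (fun x γ => T.inN γ (f x)) (fun x hx => ?_)
    (fun x _ γ γ' h h' => T.inN_unique h h') (fun x hx γ h => ?_) hx₀ h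
  · obtain ⟨g, _, hg⟩ := T.hcone (f x) (hD x hx)
    exact ⟨g, hg⟩
  · exact (hf x hx).eventually_mem ((T.isOpen_inN γ).mem_nhds h)

/-! ### The value `γ` at `u` -/

/-- the points of `E` which are neither lattice points nor punctures -/
def Cst : Set ℂ := {y | y ∈ T.E ∧ ∀ g, y ≠ T.tau g ∧ y ≠ T.q₀ + T.tau g}

/-- moving from `u` along the segment to `0` one arrives at the cone point `γ C₀` -/
def Rad (u : U) (γ : G) : Prop := ∃ (A : Set ℂ) (s : ℂ → U), IsOpen A ∧ Convex ℝ A ∧ A ⊆ T.Cst ∧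
  (0 : ℂ) ∈ closure A ∧ T.D u ∈ A ∧ ContinuousOn s A ∧ (∀ y ∈ A, T.D (s y) = y) ∧
  s (T.D u) = u ∧ ∀ᶠ y in 𝓝[A] 0, T.inN γ (s y)

omit [T2Space U] in
theorem Rad.mem_Cst {u : U} {γ : G} (h : T.Rad u γ) : T.D u ∈ T.Cst := by
  obtain ⟨A, s, _, _, h1, _, h2, _⟩ := h
  exact h1 h2

/-- the half open segment -/
theorem seg_mem {A : Set ℂ} (hA : IsOpen A) (hAc : Convex ℝ A) (h0 : (0 : ℂ) ∈ closure A) {y : ℂ}
    (hy : y ∈ A) {t : ℝ} (ht0 : 0 < t) (ht1 : t ≤ 1) : (t : ℂ) * y ∈ A := by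
  rcases ht1.eq_or_lt with rfl | ht1
  · simpa using hy
  · have h1 : openSegment ℝ y 0 ⊆ interior A :=
      hAc.openSegment_interior_closure_subset_interior (by rwa [hA.interior_eq]) h0
    rw [hA.interior_eq] at h1
    refine h1 ⟨t, 1 - t, ht0, by linarith, by ring, ?_⟩
    simp

omit [T2Space U] in
/-- the segment from a point with a value contains no puncture -/
theorem Rad.no_punct {u : U} {γ : G} (h : T.Rad u γ) (h0q : ∀ g, T.q₀ + T.tau g ≠ 0) (g : G) :
    T.q₀ + T.tau g ∉ segment ℝ (0 : ℂ) (T.D u) := by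
  obtain ⟨A, s, hA, hAc, h1, h0, h2, _⟩ := h
  rintro ⟨a, b, ha, hb, hab, heq⟩
  rw [smul_zero, zero_add] at heq
  rcases hb.eq_or_lt with rfl | hb
  · rw [zero_smul] at heq
    exact h0q g heq.symm
  · have := h1 (seg_mem hA hAc h0 h2 hb (by linarith))
    rw [← Complex.real_smul, heq] at this
    exact (this.2 g).2 rfl

theorem Rad.unique {u : U} {γ γ' : G} (h : T.Rad u γ) (h' : T.Rad u γ') : γ = γ' := by
  obtain ⟨A, s, hA, hAc, h1, h0, h2, hs, hsD, hsu, hev⟩ := h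
  obtain ⟨A', s', hA', hAc', h1', h0', h2', hs', hsD', hsu', hev'⟩ := h'
  set y := T.D u with hy
  have hm : MapsTo (fun t : ℝ => (t : ℂ) * y) (Ioc 0 1) A := fun t ht =>
    seg_mem hA hAc h0 h2 ht.1 ht.2
  have hm' : MapsTo (fun t : ℝ => (t : ℂ) * y) (Ioc 0 1) A' := fun t ht =>
    seg_mem hA' hAc' h0' h2' ht.1 ht.2
  have hc : Continuous (fun t : ℝ => (t : ℂ) * y) := Complex.continuous_ofReal.mul continuous_const
  have key : ∀ t ∈ Ioc (0 : ℝ) 1, s ((t : ℂ) * y) = s' ((t : ℂ) * y) := by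
    refine lift_unique (D := T.D) (isPreconnected_Ioc (a := (0 : ℝ)) (b := 1))
      (f := fun t : ℝ => s ((t : ℂ) * y)) (g := fun t : ℝ => s' ((t : ℂ) * y))
      (hs.comp hc.continuousOn hm) (hs'.comp hc.continuousOn hm') ?_ ?_
      (x₀ := 1) ⟨zero_lt_one, le_rfl⟩ ?_
    · intro t ht
      rw [hsD _ (hm ht), hsD' _ (hm' ht)]
    · intro t ht
      refine T.loc_of _ fun g => ?_
      rw [hsD _ (hm ht)]
      exact ((h1 (hm ht)).2 g).1
    · simp only [Complex.ofReal_one, one_mul]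
      rw [hsu, hsu']
  have hlim : ∀ B : Set ℂ, MapsTo (fun t : ℝ => (t : ℂ) * y) (Ioc 0 1) B →
      Tendsto (fun t : ℝ => (t : ℂ) * y) (𝓝[>] 0) (𝓝[B] 0) := by
    intro B hB
    rw [tendsto_nhdsWithin_iff]
    constructor
    · have := hc.tendsto 0
      simp only [Complex.ofReal_zero, zero_mul] at this
      exact this.mono_left nhdsWithin_le_nhds
    · filter_upwards [Ioc_mem_nhdsGT (zero_lt_one (α := ℝ))] with t ht using hB ht
  have e1 := (hlim A hm).eventually hev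
  have e2 := (hlim A' hm').eventually hev'
  have e3 : ∀ᶠ t : ℝ in 𝓝[>] 0, t ∈ Ioc (0 : ℝ) 1 := Ioc_mem_nhdsGT zero_lt_one
  obtain ⟨t, k1, k2, k3⟩ := (e1.and (e2.and e3)).exists
  rw [← key t k3] at k2
  exact T.inN_unique k1 k2

omit [T2Space U] in
theorem Rad.nhds {u : U} {γ : G} (h : T.Rad u γ) : ∀ᶠ u' in 𝓝 u, T.Rad u' γ := by
  have hCst := h.mem_Cst
  obtain ⟨A, s, hA, hAc, h1, h0, h2, hs, hsD, hsu, hev⟩ := h
  have := sec_nhds hA T.hB.cont hs hsD h2 hsu (T.loc_of u fun g => (hCst.2 g).1)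
  filter_upwards [this] with u' hu'
  exact ⟨A, s, hA, hAc, h1, h0, hu'.1, hs, hsD, hu'.2, hev⟩

omit [T2Space U] in
theorem Rad.smul {u : U} {γ : G} (h : T.Rad u γ) {g : G} (hg : T.tau g = 0) :
    T.Rad (g • u) (g * γ) := by
  obtain ⟨A, s, hA, hAc, h1, h0, h2, hs, hsD, hsu, hev⟩ := h
  have hDg : T.D (g • u) = T.D u := by rw [T.D_smul, hg, add_zero]
  refine ⟨A, fun y => g • s y, hA, hAc, h1, h0, by rwa [hDg], (T.hact g).comp_continuousOn hs,
    fun y hy => ?_, ?_, ?_⟩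
  · rw [T.D_smul, hg, add_zero, hsD y hy]
  · change g • s (T.D (g • u)) = g • u
    rw [hDg, hsu]
  · filter_upwards [hev] with y hy
    unfold inN at hy ⊢
    rwa [mul_inv_rev, mul_smul, inv_smul_smul]

/-- values are constant along connected sets -/
theorem rad_const {X : Type} [TopologicalSpace X] {S : Set X} (hS : IsPreconnected S)
    {f : X → U} (hf : ContinuousOn f S) (hex : ∀ x ∈ S, ∃ γ, T.Rad (f x) γ) {x₀ : X}
    (hx₀ : x₀ ∈ S) {γ : G} (h : T.Rad (f x₀) γ) : ∀ x ∈ S, T.Rad (f x) γ :=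
  const_of_loc hS (fun x γ => T.Rad (f x) γ) hex (fun _ _ _ _ h h' => Rad.unique T h h')
    (fun x hx _ h => (hf x hx).eventually (Rad.nhds T h)) hx₀ h

end Ctx

end TLAux

end Pool.Agent.CircleShift
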