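import Pool.Agent.Work.MP_0fc146_gt_helper76.TL1

/-!
# Block TL, part 2: existence of values, the equivalence relation, the ray behind the puncture
-/

noncomputable section

open scoped Topology UpperHalfPlane ComplexConjugate
open Filter Set

namespace Pool.Agent.CircleShift

namespace TLAux

namespace Ctx

variable {U : Type} [TopologicalSpace U] [T2Space U] [MulAction G U] (T : Ctx U)

omit [T2Space U] in
theorem punct_unique {g g' : G} (h : T.q₀ + T.tau g ∈ T.E) (h' : T.q₀ + T.tau g' ∈ T.E) :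
    T.tau g = T.tau g' := by
  have h1 := T.hsmall _ h _ h' (g * g'⁻¹) (by rw [T.tau_mul, T.tau_inv]; ring)
  rw [T.tau_mul, T.tau_inv] at h1
  linear_combination h1

omit [T2Space U] in
theorem punct_ne (g : G) : T.q₀ + T.tau g ≠ 0 := by
  intro h
  apply T.hB.puncture g⁻¹
  rw [T.tau_inv]
  linear_combination h

omit [T2Space U] in
theorem lattice_zero {g : G} (h : T.tau g ∈ T.E) : T.tau g = 0 :=
  T.hsmall _ h _ T.h0 g (by ring)

/-- the part of `E` without punctures -/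
def O : Set ℂ := {y | y ∈ T.E ∧ ∀ g, y ≠ T.q₀ + T.tau g}

omit [T2Space U] in
theorem isOpen_O : IsOpen T.O := by
  by_cases h : ∃ g, T.q₀ + T.tau g ∈ T.E
  · obtain ⟨g, hg⟩ := h
    have : T.O = T.E ∩ {T.q₀ + T.tau g}ᶜ := by
      ext y
      simp only [O, mem_ofPred_eq, mem_inter_iff, mem_compl_iff, mem_singleton_iff]
      constructor
      · rintro ⟨h1, h2⟩
        exact ⟨h1, h2 g⟩
      · rintro ⟨h1, h2⟩
        refine ⟨h1, fun g' hg' => h2 ?_⟩
        rw [hg'] at h1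
        rw [hg', T.punct_unique h1 hg]
    rw [this]
    exact T.hE.inter isOpen_compl_singleton
  · have : T.O = T.E := by
      ext y
      simp only [O, mem_ofPred_eq]
      constructor
      · rintro ⟨h1, _⟩
        exact h1
      · intro h1
        refine ⟨h1, fun g' hg' => h ⟨g', ?_⟩⟩
        rwa [← hg']
    rw [this]
    exact T.hE

omit [T2Space U] in
theorem zero_mem_O : (0 : ℂ) ∈ T.O := ⟨T.h0, fun g h => T.punct_ne g h.symm⟩

omit [T2Space U] in
theorem mem_Cst {y : ℂ} (h : y ∈ T.O) (h0 : y ≠ 0) : y ∈ T.Cst := by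
  refine ⟨h.1, fun g => ⟨fun hg => h0 ?_, h.2 g⟩⟩
  rw [hg]
  apply T.lattice_zero
  rw [← hg]
  exact h.1

theorem rad_of_A {A : Set ℂ} (hA : IsOpen A) (hAc : Convex ℝ A) (hAC : A ⊆ T.Cst)
    (h0 : (0 : ℂ) ∈ closure A) {u : U} (hu : T.D u ∈ A) : ∃ γ, T.Rad u γ := by
  obtain ⟨s, hs, hsD, hsu⟩ := exists_section T.hcov hA hAc (fun y hy => (hAC hy).2) hu
  have hpre : IsPreconnected (A ∩ Metric.ball 0 T.r₀) :=
    (hAc.inter (convex_ball _ _)).isPreconnected
  obtain ⟨z₀, hz1, hz2⟩ := mem_closure_iff.1 h0 (Metric.ball 0 T.r₀) Metric.isOpen_ball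
    (Metric.mem_ball_self T.hr₀)
  have hD : ∀ x ∈ A ∩ Metric.ball 0 T.r₀, ‖T.D (s x)‖ < T.r₀ := by
    intro x hx
    rw [hsD x hx.1]
    exact mem_ball_zero_iff.1 hx.2
  obtain ⟨g, _, hg⟩ := T.hcone (s z₀) (hD z₀ ⟨hz2, hz1⟩)
  have h1 := T.inN_const hpre (hs.mono inter_subset_left) hD (x₀ := z₀) ⟨hz2, hz1⟩ (γ := g) hg
  refine ⟨g, A, s, hA, hAc, hAC, h0, hu, hs, hsD, hsu, ?_⟩
  filter_upwards [self_mem_nhdsWithin, mem_nhdsWithin_of_mem_nhds (Metric.ball_mem_nhds 0 T.hr₀)]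
    with y hy1 hy2 using h1 y ⟨hy1, hy2⟩

theorem convex_half (y : ℂ) : Convex ℝ {z : ℂ | 0 < (z * conj y).re} := by
  apply convex_halfSpace_gt (f := fun z : ℂ => (z * conj y).re)
  refine ⟨fun a b => ?_, fun c a => ?_⟩
  · rw [add_mul, Complex.add_re]
  · rw [Complex.real_smul, mul_assoc, Complex.re_ofReal_mul, smul_eq_mul]

theorem isOpen_half (y : ℂ) : IsOpen {z : ℂ | 0 < (z * conj y).re} :=
  isOpen_lt continuous_const (Complex.continuous_re.comp (continuous_id.mul continuous_const))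

theorem half_self {y : ℂ} (hy : y ≠ 0) {t : ℝ} (ht : 0 < t) : 0 < (((t : ℂ) * y) * conj y).re := by
  rw [mul_assoc, Complex.mul_conj, ← Complex.ofReal_mul, Complex.ofReal_re]
  exact mul_pos ht (Complex.normSq_pos.2 hy)

theorem zero_mem_closure {A : Set ℂ} {y : ℂ} {δ : ℝ} (hδ : 0 < δ)
    (h : ∀ t : ℝ, 0 < t → t < δ → (t : ℂ) * y ∈ A) : (0 : ℂ) ∈ closure A := by
  refine mem_closure_of_tendsto (f := fun t : ℝ => (t : ℂ) * y) (b := 𝓝[>] 0) ?_ ?_
  · have hc : Continuous (fun t : ℝ => (t : ℂ) * y) :=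
      Complex.continuous_ofReal.mul continuous_const
    have := hc.tendsto 0
    simp only [Complex.ofReal_zero, zero_mul] at this
    exact this.mono_left nhdsWithin_le_nhds
  · filter_upwards [Ioo_mem_nhdsGT hδ] with t ht using h t ht.1 ht.2

theorem exists_rad {u : U} (hE : T.D u ∈ T.E) (h0 : T.D u ≠ 0)
    (hp : ∀ g, T.q₀ + T.tau g ∉ segment ℝ (0 : ℂ) (T.D u)) : ∃ γ, T.Rad u γ := by
  set y := T.D u with hy
  have hK : IsCompact (segment ℝ (0 : ℂ) y) := by
    rw [segment_eq_image_lineMap]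
    exact isCompact_Icc.image AffineMap.lineMap_continuous
  have hKO : segment ℝ (0 : ℂ) y ⊆ T.O := by
    intro z hz
    refine ⟨T.hEc.segment_subset T.h0 hE hz, fun g hg => hp g ?_⟩
    rwa [← hg]
  obtain ⟨δ, hδ, hth⟩ := hK.exists_thickening_subset_open T.isOpen_O hKO
  set A := Metric.thickening δ (segment ℝ (0 : ℂ) y) ∩ {z : ℂ | 0 < (z * conj y).re} with hAdef
  have hA : IsOpen A := Metric.isOpen_thickening.inter (isOpen_half y)
  have hAc : Convex ℝ A := ((convex_segment (𝕜 := ℝ) (0 : ℂ) y).thickening δ).inter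
    (convex_half y)
  have hseg : ∀ t : ℝ, 0 < t → t ≤ 1 → (t : ℂ) * y ∈ A := by
    intro t ht0 ht1
    refine ⟨Metric.self_subset_thickening hδ _ ⟨1 - t, t, by linarith, ht0.le, by ring, ?_⟩,
      half_self h0 ht0⟩
    simp
  refine T.rad_of_A hA hAc (fun z hz => ?_) ?_ ?_
  · refine T.mem_Cst (hth hz.1) ?_
    rintro rfl
    have := hz.2
    simp at this
  · exact zero_mem_closure zero_lt_one fun t h1 h2 => hseg t h1 h2.le
  · have := hseg 1 zero_lt_one le_rfl
    rwa [Complex.ofReal_one, one_mul] at this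

/-- in a small cone disc the value is known -/
theorem rad_cone {r₁ : ℝ} (hr1 : r₁ ≤ T.r₀) (hball : Metric.ball 0 r₁ ⊆ T.O) {u : U} {γ : G}
    (hγ : T.inN γ u) (h0 : T.D u ≠ 0) (hu : ‖T.D u‖ < r₁) : T.Rad u γ := by
  set y := T.D u with hy
  set A := Metric.ball (0 : ℂ) r₁ ∩ {z : ℂ | 0 < (z * conj y).re} with hAdef
  have hA : IsOpen A := Metric.isOpen_ball.inter (isOpen_half y)
  have hAc : Convex ℝ A := (convex_ball _ _).inter (convex_half y)
  have hyA : y ∈ A := by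
    refine ⟨mem_ball_zero_iff.2 hu, ?_⟩
    have := half_self h0 zero_lt_one
    rwa [Complex.ofReal_one, one_mul] at this
  have hAC : A ⊆ T.Cst := by
    intro z hz
    refine T.mem_Cst (hball hz.1) ?_
    rintro rfl
    have := hz.2
    simp at this
  obtain ⟨s, hs, hsD, hsu⟩ := exists_section T.hcov hA hAc (fun y hy => (hAC hy).2) hyA
  have h1 := T.inN_const hAc.isPreconnected hs (fun x hx => ?_) (x₀ := y) hyA (γ := γ)
    (by rw [hsu]; exact hγ)
  · refine ⟨A, s, hA, hAc, hAC, ?_, hyA, hs, hsD, hsu, ?_⟩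
    · refine zero_mem_closure (y := y) zero_lt_one fun t ht0 ht1 => ⟨?_, half_self h0 ht0⟩
      rw [mem_ball_zero_iff, norm_mul, Complex.norm_real, Real.norm_of_nonneg ht0.le]
      calc t * ‖y‖ ≤ 1 * ‖y‖ := mul_le_mul_of_nonneg_right ht1.le (norm_nonneg _)
        _ < r₁ := by rw [one_mul]; exact hu
    · filter_upwards [self_mem_nhdsWithin] with z hz using h1 z hz
  · rw [hsD x hx]
    exact (mem_ball_zero_iff.1 hx.1).trans_le hr1

/-- points `q (1 + w)` of `E` which are not on the ray behind the puncture `q` have values -/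
theorem exists_rad_w {g : G} (hq : T.q₀ + T.tau g ∈ T.E) {w : ℂ} (hw0 : 1 + w ≠ 0)
    (hw : w.re < 0 ∨ w.im ≠ 0) {u : U} (hu : T.D u = (T.q₀ + T.tau g) * (1 + w))
    (hE : T.D u ∈ T.E) : ∃ γ, T.Rad u γ := by
  have hq0 := T.punct_ne g
  refine T.exists_rad hE (by rw [hu]; exact mul_ne_zero hq0 hw0) fun g' hg' => ?_
  have h1 : T.q₀ + T.tau g' ∈ T.E := T.hEc.segment_subset T.h0 hE hg'
  rw [T.punct_unique h1 hq] at hg'
  obtain ⟨a, b, ha, hb, hab, heq⟩ := hg'
  rw [smul_zero, zero_add, hu, Complex.real_smul] at heq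
  have h2 : (b : ℂ) * (1 + w) = 1 := by
    apply mul_left_cancel₀ hq0
    rw [mul_one]
    linear_combination heq
  have hre := congrArg Complex.re h2
  have him := congrArg Complex.im h2
  rw [Complex.re_ofReal_mul] at hre
  rw [Complex.im_ofReal_mul] at him
  simp only [Complex.add_re, Complex.one_re, Complex.add_im, Complex.one_im, zero_add] at hre him
  have hb0 : b ≠ 0 := by
    rintro rfl
    simp at hre
  rcases hw with hw | hw
  · have hb1 : b ≤ 1 := by linarith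
    have : b * (1 + w.re) < 1 := by
      have hbpos : 0 < b := lt_of_le_of_ne hb (Ne.symm hb0)
      nlinarith
    linarith
  · exact (mul_ne_zero hb0 hw) him

end Ctx

/-- the slit disc is connected -/
theorem slit_preconnected {κ : ℝ} (hκ : 0 < κ) :
    IsPreconnected {w : ℂ | ‖w‖ < κ ∧ (w.re < 0 ∨ w.im ≠ 0)} := by
  have hmem : (-(κ / 2 : ℝ) : ℂ) ∈ {w : ℂ | ‖w‖ < κ ∧ (w.re < 0 ∨ w.im ≠ 0)} := by
    refine ⟨?_, Or.inl ?_⟩
    · rw [norm_neg, Complex.norm_real, Real.norm_of_nonneg (by positivity)]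
      linarith
    · simp; positivity
  refine (StarConvex.isPathConnected (a := (-(κ / 2 : ℝ) : ℂ)) ?_ hmem).isConnected.isPreconnected
  rintro w ⟨hw1, hw2⟩ a b ha hb hab
  refine ⟨?_, ?_⟩
  · have := (convex_ball (0 : ℂ) κ) (mem_ball_zero_iff.2 hmem.1) (mem_ball_zero_iff.2 hw1) ha hb hab
    exact mem_ball_zero_iff.1 this
  · rcases hb.eq_or_lt with rfl | hb0
    · left
      have ha1 : a = 1 := by linarith
      subst ha1
      simp
      positivity
    · rcases hw2 with hw2 | hw2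
      · left
        simp only [Complex.add_re, Complex.real_smul, Complex.re_ofReal_mul, Complex.neg_re,
          Complex.ofReal_re]
        have : b * w.re < 0 := mul_neg_of_pos_of_neg hb0 hw2
        have : 0 ≤ a * (κ / 2) := by positivity
        linarith
      · right
        simp only [Complex.add_im, Complex.real_smul, Complex.im_ofReal_mul, Complex.neg_im,
          Complex.ofReal_im, neg_zero, mul_zero, zero_add]
        exact mul_ne_zero hb0.ne' hw2

/-- the data together with the parametrisation of the punctured discs -/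
structure Ctx2 (U : Type) [TopologicalSpace U] [MulAction G U] extends Ctx U where
  r : ℝ
  j : ℍ → U
  hr : 0 < r
  hj : Continuous j
  hjD : ∀ z : ℍ, D (j z) = q₀ + r * Complex.exp (2 * Real.pi * Complex.I * z)
  hj1 : ∀ z : ℍ, j ((1 : ℝ) +ᵥ z) = chat • j z
  hcls : ∀ u g, 0 < ‖D u - (q₀ + tau g)‖ → ‖D u - (q₀ + tau g)‖ < r →
      (∃ (g' : G) (z : ℍ), tau g' = tau g ∧ u = g' • j z) ∨
      (∃ s : ℂ → U, ContinuousOn s (Metric.ball (q₀ + tau g) r) ∧
        (∀ y ∈ Metric.ball (q₀ + tau g) r, D (s y) = y) ∧ s (D u) = u)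
  κ : ℝ
  hκ0 : 0 < κ
  hκ1 : κ < 1
  hκE : ∀ g, q₀ + tau g ∈ E → ∀ y, ‖y - (q₀ + tau g)‖ < κ * ‖q₀ + tau g‖ → y ∈ E
  hκr : ∀ g, q₀ + tau g ∈ E → κ * ‖q₀ + tau g‖ ≤ r

namespace Ctx2

variable {U : Type} [TopologicalSpace U] [T2Space U] [MulAction G U] (T : Ctx2 U)

omit [T2Space U] in
theorem tau_chat : T.tau chat = 0 := by
  have h1 := T.hjD ((1 : ℝ) +ᵥ UpperHalfPlane.I)
  rw [T.hj1, T.toCtx.D_smul, T.hjD UpperHalfPlane.I] at h1
  have h2 : Complex.exp (2 * Real.pi * Complex.I * (((1 : ℝ) +ᵥ UpperHalfPlane.I : ℍ) : ℂ)) =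
      Complex.exp (2 * Real.pi * Complex.I * (UpperHalfPlane.I : ℂ)) := by
    rw [UpperHalfPlane.coe_vadd, Complex.ofReal_one, mul_add, mul_one, Complex.exp_add,
      Complex.exp_two_pi_mul_I, one_mul]
  rw [h2] at h1
  linear_combination h1

omit [T2Space U] in
theorem tau_chat_zpow (n : ℤ) : T.tau (chat ^ n) = 0 := by
  have hnat : ∀ n : ℕ, T.tau (chat ^ n) = 0 := by
    intro n
    induction n with
    | zero => rw [pow_zero]; exact T.toCtx.tau_one
    | succ n ih => rw [pow_succ, T.toCtx.tau_mul, ih, T.tau_chat, add_zero]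
  cases n with
  | ofNat n =>
      change T.tau (chat ^ (n : ℤ)) = 0
      rw [zpow_natCast]
      exact hnat n
  | negSucc n => rw [zpow_negSucc, T.toCtx.tau_inv, hnat, neg_zero]

omit [T2Space U] in
theorem j_nat (n : ℕ) (z : ℍ) : T.j ((n : ℝ) +ᵥ z) = chat ^ n • T.j z := by
  induction n with
  | zero => simp
  | succ n ih =>
      have : (((n + 1 : ℕ) : ℝ) +ᵥ z : ℍ) = (1 : ℝ) +ᵥ ((n : ℝ) +ᵥ z : ℍ) := by
        rw [vadd_vadd]
        push_cast
        rw [add_comm]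
      rw [this, T.hj1, ih, ← mul_smul, pow_succ']

omit [T2Space U] in
theorem j_int (n : ℤ) (z : ℍ) : T.j ((n : ℝ) +ᵥ z) = chat ^ n • T.j z := by
  cases n with
  | ofNat n =>
      change T.j (((n : ℤ) : ℝ) +ᵥ z) = chat ^ (n : ℤ) • T.j z
      rw [zpow_natCast, Int.cast_natCast]
      exact T.j_nat n z
  | negSucc n =>
      rw [zpow_negSucc, eq_inv_smul_iff, ← T.j_nat, vadd_vadd]
      simp

/-- the puncture `q` with its neighbourhood -/
def Pq (γ g : G) : Prop := T.q₀ + T.tau g ∈ T.E ∧ ∃ z : ℍ,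
  T.D (g • T.j z) = (T.q₀ + T.tau g) * (1 - (T.κ / 2 : ℝ)) ∧ T.toCtx.Rad (g • T.j z) γ

theorem Pq_mul {γ g : G} (h : T.Pq γ g) (n : ℤ) : T.Pq (g * chat ^ n * g⁻¹ * γ) g := by
  obtain ⟨h1, z, hz, hrad⟩ := h
  have ht : T.tau (g * chat ^ n * g⁻¹) = 0 := by
    rw [T.toCtx.tau_mul, T.toCtx.tau_mul, T.toCtx.tau_inv, T.tau_chat_zpow]
    ring
  have he : g • T.j ((n : ℝ) +ᵥ z) = (g * chat ^ n * g⁻¹) • (g • T.j z) := by
    rw [T.j_int, ← mul_smul, ← mul_smul]
    congr 1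
    group
  refine ⟨h1, (n : ℝ) +ᵥ z, ?_, ?_⟩
  · rw [he, T.toCtx.D_smul, ht, add_zero, hz]
  · rw [he]
    exact Ctx.Rad.smul T.toCtx hrad ht

theorem Pq_unique {γ g g' : G} (h : T.Pq γ g) (h' : T.Pq γ g') : ∃ n : ℤ, g' = g * chat ^ n := by
  obtain ⟨h1, z, hz, hrad⟩ := h
  obtain ⟨h1', z', hz', hrad'⟩ := h'
  have ht := T.toCtx.punct_unique h1 h1'
  have h2 : T.D (T.j z) = T.D (T.j z') := by
    rw [T.toCtx.D_smul] at hz hz'
    rw [← ht] at hz'
    linear_combination hz - hz'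
  rw [T.hjD, T.hjD] at h2
  have hr0 : (T.r : ℂ) ≠ 0 := by exact_mod_cast T.hr.ne'
  have h3 : Complex.exp (2 * Real.pi * Complex.I * z) =
      Complex.exp (2 * Real.pi * Complex.I * z') := by
    apply mul_left_cancel₀ hr0
    linear_combination h2
  obtain ⟨n, hn⟩ := Complex.exp_eq_exp_iff_exists_int.1 h3.symm
  have hpi : (2 * Real.pi * Complex.I : ℂ) ≠ 0 := Complex.two_pi_I_ne_zero
  have h4 : (z' : ℂ) = z + n := by
    apply mul_left_cancel₀ hpi
    rw [hn]
    ring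
  have h5 : z' = ((n : ℝ) +ᵥ z : ℍ) := by
    apply UpperHalfPlane.ext
    rw [UpperHalfPlane.coe_vadd, h4]
    push_cast
    ring
  have he : g' • T.j z' = (g' * chat ^ n * g⁻¹) • (g • T.j z) := by
    rw [h5, T.j_int, ← mul_smul, ← mul_smul]
    congr 1
    group
  have hk : T.tau (g' * chat ^ n * g⁻¹) = 0 := by
    rw [T.toCtx.tau_mul, T.toCtx.tau_mul, T.toCtx.tau_inv, T.tau_chat_zpow, ht]
    ring
  rw [he] at hrad'
  have h6 := Ctx.Rad.unique T.toCtx hrad' (Ctx.Rad.smul T.toCtx hrad hk)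
  have h7 : g' * chat ^ n * g⁻¹ = 1 := by
    have := congrArg (fun x => x * γ⁻¹) h6
    simp only [mul_assoc, mul_inv_cancel, mul_one] at this
    simpa [mul_assoc] using this.symm
  refine ⟨-n, ?_⟩
  rw [zpow_neg]
  rw [mul_inv_eq_one] at h7
  rw [← h7]
  group

/-- the equivalence relation on the values -/
def rel (γ₁ γ₂ : G) : Prop := γ₁ = γ₂ ∨ ∃ (g : G) (n : ℤ), T.Pq γ₁ g ∧ γ₂ = g * chat ^ n * g⁻¹ * γ₁

theorem rel_equivalence : Equivalence T.rel where
  refl _ := Or.inl rfl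
  symm := by
    rintro x y (rfl | ⟨g, n, h, rfl⟩)
    · exact Or.inl rfl
    · refine Or.inr ⟨g, -n, T.Pq_mul h n, ?_⟩
      group
  trans := by
    rintro x y z (rfl | ⟨g, n, h, rfl⟩) h2
    · exact h2
    · rcases h2 with rfl | ⟨g', m, h', rfl⟩
      · exact Or.inr ⟨g, n, h, rfl⟩
      · obtain ⟨k, rfl⟩ := T.Pq_unique (T.Pq_mul h n) h'
        refine Or.inr ⟨g, m + n, h, ?_⟩
        group

def setoid : Setoid G := ⟨T.rel, T.rel_equivalence⟩

end Ctx2

end TLAux

end Pool.Agent.CircleShift
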