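import Pool.Agent.Work.MP_0fc146_gt_helper76.TL2

/-!
# Block TL, part 3: the class of the value is locally constant
-/

noncomputable section

open scoped Topology UpperHalfPlane ComplexConjugate
open Filter Set

namespace Pool.Agent.CircleShift

namespace TLAux

namespace Ctx2

variable {U : Type} [TopologicalSpace U] [T2Space U] [MulAction G U] (T : Ctx2 U)

/-- a point which is not on the ray -/
theorem off_ray {q y : ℂ} (hq : q ≠ 0) (h : q ∉ segment ℝ (0 : ℂ) y) :
    (y / q - 1).re < 0 ∨ (y / q - 1).im ≠ 0 := by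
  by_contra hcon
  push Not at hcon
  obtain ⟨h1, h2⟩ := hcon
  apply h
  set x := (y / q - 1).re with hx
  have h3 : y / q - 1 = (x : ℂ) := by
    apply Complex.ext
    · rw [Complex.ofReal_re]
    · rw [Complex.ofReal_im]
      exact h2
  have h4 : y = q * (1 + x) := by
    field_simp at h3
    linear_combination h3
  have h5 : (1 + x : ℝ) ≠ 0 := by positivity
  refine ⟨1 - (1 + x)⁻¹, (1 + x)⁻¹, ?_, by positivity, by ring, ?_⟩
  · rw [sub_nonneg]
    exact inv_le_one_of_one_le₀ (by linarith)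
  · rw [smul_zero, zero_add, h4, Complex.real_smul]
    have : ((1 + x : ℝ) : ℂ) ≠ 0 := by exact_mod_cast h5
    push_cast at this ⊢
    field_simp

omit [T2Space U] in
theorem Rad.off_ray {u : U} {γ : G} (h : T.toCtx.Rad u γ) (g : G) :
    (T.D u / (T.q₀ + T.tau g) - 1).re < 0 ∨ (T.D u / (T.q₀ + T.tau g) - 1).im ≠ 0 :=
  Ctx2.off_ray (T.toCtx.punct_ne g) (Ctx.Rad.no_punct T.toCtx h T.toCtx.punct_ne g)

/-- Loops: two sided values along the ray behind the puncture are related. -/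
theorem two_sides {g : G} (hq : T.q₀ + T.tau g ∈ T.E) {s : ℂ → U}
    (hs : ContinuousOn s {y | y ∈ T.E ∧ 0 < (y / (T.q₀ + T.tau g) - 1).re})
    (hsD : ∀ y ∈ {y | y ∈ T.E ∧ 0 < (y / (T.q₀ + T.tau g) - 1).re}, T.D (s y) = y) :
    ∃ γ γ' : G, T.rel γ' γ ∧
      (∀ y ∈ {y | y ∈ T.E ∧ 0 < (y / (T.q₀ + T.tau g) - 1).re},
        0 < (y / (T.q₀ + T.tau g) - 1).im → T.toCtx.Rad (s y) γ) ∧
      (∀ y ∈ {y | y ∈ T.E ∧ 0 < (y / (T.q₀ + T.tau g) - 1).re},
        (y / (T.q₀ + T.tau g) - 1).im < 0 → T.toCtx.Rad (s y) γ') := by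
  set q := T.q₀ + T.tau g with hqdef
  have hq0 : q ≠ 0 := T.toCtx.punct_ne g
  set Cc : Set ℂ := {y | y ∈ T.E ∧ 0 < (y / q - 1).re} with hC
  -- convexity
  have hlin : IsLinearMap ℝ (fun y : ℂ => (y / q).re) := by
    refine ⟨fun a b => ?_, fun c a => ?_⟩
    · rw [add_div, Complex.add_re]
    · rw [Complex.real_smul, mul_div_assoc, Complex.re_ofReal_mul, smul_eq_mul]
  have hlin' : IsLinearMap ℝ (fun y : ℂ => (y / q).im) := by
    refine ⟨fun a b => ?_, fun c a => ?_⟩
    · rw [add_div, Complex.add_im]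
    · rw [Complex.real_smul, mul_div_assoc, Complex.im_ofReal_mul, smul_eq_mul]
  have hCeq : Cc = T.E ∩ {y | 1 < (y / q).re} := by
    ext y
    simp only [hC, mem_ofPred_eq, mem_inter_iff, Complex.sub_re, Complex.one_re]
    constructor
    · rintro ⟨h1, h2⟩; exact ⟨h1, by linarith⟩
    · rintro ⟨h1, h2⟩; exact ⟨h1, by linarith⟩
  have hCconv : Convex ℝ Cc := by
    rw [hCeq]
    exact T.hEc.inter (convex_halfSpace_gt hlin 1)
  have hup : Convex ℝ (Cc ∩ {y | 0 < (y / q).im}) := hCconv.inter (convex_halfSpace_gt hlin' 0)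
  have hdn : Convex ℝ (Cc ∩ {y | (y / q).im < 0}) := hCconv.inter (convex_halfSpace_lt hlin' 0)
  have him : ∀ y : ℂ, (y / q - 1).im = (y / q).im := fun y => by simp
  have hrad : ∀ y ∈ Cc, (y / q).im ≠ 0 → ∃ γ, T.toCtx.Rad (s y) γ := by
    intro y hy hne
    have h1 : T.D (s y) = (T.q₀ + T.tau g) * (1 + (y / q - 1)) := by
      rw [hsD y hy, ← hqdef]
      field_simp
      ring
    refine T.toCtx.exists_rad_w hq ?_ (Or.inr (by rw [him]; exact hne)) h1
      (by rw [hsD y hy]; exact hy.1)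
    intro h0
    have : y / q = 0 := by linear_combination h0
    rw [this] at hne
    simp at hne
  -- constants on both sides
  have hupc : ∀ {y₁ : ℂ} {γ : G}, y₁ ∈ Cc → 0 < (y₁ / q).im → T.toCtx.Rad (s y₁) γ →
      ∀ y ∈ Cc, 0 < (y / q - 1).im → T.toCtx.Rad (s y) γ := by
    intro y₁ γ h1 h2 h3 y hy hy2
    rw [him] at hy2
    exact T.toCtx.rad_const hup.isPreconnected (hs.mono inter_subset_left)
      (fun x hx => hrad x hx.1 (ne_of_gt hx.2)) ⟨h1, h2⟩ h3 y ⟨hy, hy2⟩
  have hdnc : ∀ {y₁ : ℂ} {γ : G}, y₁ ∈ Cc → (y₁ / q).im < 0 → T.toCtx.Rad (s y₁) γ →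
      ∀ y ∈ Cc, (y / q - 1).im < 0 → T.toCtx.Rad (s y) γ := by
    intro y₁ γ h1 h2 h3 y hy hy2
    rw [him] at hy2
    exact T.toCtx.rad_const hdn.isPreconnected (hs.mono inter_subset_left)
      (fun x hx => hrad x hx.1 (ne_of_lt hx.2)) ⟨h1, h2⟩ h3 y ⟨hy, hy2⟩
  -- points near the puncture
  have hnear : ∀ w : ℂ, ‖w‖ < T.κ → q * (1 + w) ∈ T.E := by
    intro w hw
    refine T.hκE g hq _ ?_
    have : q * (1 + w) - (T.q₀ + T.tau g) = q * w := by rw [← hqdef]; ring
    rw [this, norm_mul, mul_comm]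
    exact mul_lt_mul_of_pos_right hw (norm_pos_iff.2 hq0)
  have hdiv : ∀ w : ℂ, q * (1 + w) / q - 1 = w := by
    intro w
    field_simp
    ring
  have hnearC : ∀ w : ℂ, ‖w‖ < T.κ → 0 < w.re → q * (1 + w) ∈ Cc := by
    intro w hw hre
    refine ⟨hnear w hw, ?_⟩
    rw [hdiv]
    exact hre
  have hκ0 := T.hκ0
  have hκ1 := T.hκ1
  have hw0n : ‖((T.κ / 2 : ℝ) : ℂ)‖ < T.κ := by
    rw [Complex.norm_real, Real.norm_of_nonneg (by positivity)]
    linarith
  set y' : ℂ := q * (1 + ((T.κ / 2 : ℝ) : ℂ)) with hy'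
  have hy'C : y' ∈ Cc := hnearC _ hw0n (by rw [Complex.ofReal_re]; positivity)
  set u' := s y' with hu'
  have hDu' : T.D u' = y' := hsD y' hy'C
  have hnorm : ‖T.D u' - (T.q₀ + T.tau g)‖ = T.κ / 2 * ‖q‖ := by
    rw [hDu', hy', ← hqdef]
    have : q * (1 + ((T.κ / 2 : ℝ) : ℂ)) - q = q * ((T.κ / 2 : ℝ) : ℂ) := by ring
    rw [this, norm_mul, Complex.norm_real, Real.norm_of_nonneg (by positivity), mul_comm]
  have hqpos : 0 < ‖q‖ := norm_pos_iff.2 hq0
  have hκr := T.hκr g hq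
  rw [← hqdef] at hκr
  rcases T.hcls u' g (by rw [hnorm]; positivity) (by rw [hnorm]; nlinarith) with
    ⟨g', z, htau, hz⟩ | ⟨s₂, hs₂, hs₂D, hs₂u⟩
  · -- the point is in a punctured disc
    set f : ℝ → U := fun t => g' • T.j (t +ᵥ z) with hf
    have hfc : Continuous f := by
      refine (T.hact g').comp (T.hj.comp ?_)
      rw [UpperHalfPlane.isEmbedding_coe.continuous_iff]
      have : (UpperHalfPlane.coe ∘ fun t : ℝ => (t +ᵥ z : ℍ)) = fun t : ℝ => (t : ℂ) + z := by
        funext t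
        simp
      rw [this]
      exact Complex.continuous_ofReal.add continuous_const
    have hqg' : T.q₀ + T.tau g' = q := by rw [htau]
    have hr : (T.r : ℂ) * Complex.exp (2 * Real.pi * Complex.I * z) = q * ((T.κ / 2 : ℝ) : ℂ) := by
      have h1 : T.D u' = T.D (g' • T.j z) := by rw [hz]
      rw [T.toCtx.D_smul, T.hjD, hDu', hy', htau] at h1
      have h2 : q = T.q₀ + T.tau g := hqdef
      linear_combination h2 - h1
    have hDf : ∀ t : ℝ, T.D (f t) =
        q * (1 + ((T.κ / 2 : ℝ) : ℂ) * Complex.exp (2 * Real.pi * Complex.I * t)) := by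
      intro t
      rw [hf]
      change T.D (g' • T.j (t +ᵥ z)) = _
      rw [T.toCtx.D_smul, T.hjD, UpperHalfPlane.coe_vadd, mul_add, Complex.exp_add, ← hqg']
      have h2 : q = T.q₀ + T.tau g' := hqg'.symm
      rw [h2] at hr
      linear_combination (Complex.exp (2 * Real.pi * Complex.I * t)) * hr
    have hnw : ∀ t : ℝ, ‖((T.κ / 2 : ℝ) : ℂ) * Complex.exp (2 * Real.pi * Complex.I * t)‖ < T.κ := by
      intro t
      have : (2 * Real.pi * Complex.I * t : ℂ) = ((2 * Real.pi * t : ℝ) : ℂ) * Complex.I := by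
        push_cast; ring
      rw [norm_mul, this, Complex.norm_exp_ofReal_mul_I, mul_one]
      exact hw0n
    have hexp : ∀ t : ℝ, ((T.κ / 2 : ℝ) : ℂ) * Complex.exp (2 * Real.pi * Complex.I * t) =
        ((T.κ / 2 * Real.cos (2 * Real.pi * t) : ℝ) : ℂ) +
          ((T.κ / 2 * Real.sin (2 * Real.pi * t) : ℝ) : ℂ) * Complex.I := by
      intro t
      have : (2 * Real.pi * Complex.I * t : ℂ) = ((2 * Real.pi * t : ℝ) : ℂ) * Complex.I := by
        push_cast; ring
      rw [this, Complex.exp_mul_I, ← Complex.ofReal_cos, ← Complex.ofReal_sin]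
      push_cast
      ring
    have hre : ∀ t : ℝ, (((T.κ / 2 : ℝ) : ℂ) * Complex.exp (2 * Real.pi * Complex.I * t)).re =
        T.κ / 2 * Real.cos (2 * Real.pi * t) := by
      intro t
      rw [hexp, Complex.add_re, Complex.ofReal_re, Complex.re_ofReal_mul, Complex.I_re, mul_zero,
        add_zero]
    have him2 : ∀ t : ℝ, (((T.κ / 2 : ℝ) : ℂ) * Complex.exp (2 * Real.pi * Complex.I * t)).im =
        T.κ / 2 * Real.sin (2 * Real.pi * t) := by
      intro t
      rw [hexp, Complex.add_im, Complex.ofReal_im, Complex.im_ofReal_mul, Complex.I_im, mul_one,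
        zero_add]
    have hfrad : ∀ t : ℝ, (Real.cos (2 * Real.pi * t) < 0 ∨ Real.sin (2 * Real.pi * t) ≠ 0) →
        ∃ γ, T.toCtx.Rad (f t) γ := by
      intro t ht
      refine T.toCtx.exists_rad_w hq (w := ((T.κ / 2 : ℝ) : ℂ) *
        Complex.exp (2 * Real.pi * Complex.I * t)) ?_ ?_ (hDf t) ?_
      · intro h0
        have h1 : ((T.κ / 2 : ℝ) : ℂ) * Complex.exp (2 * Real.pi * Complex.I * t) = -1 := by
          linear_combination h0
        have h2 := hnw t
        rw [h1, norm_neg, norm_one] at h2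
        linarith
      · rw [hre, him2]
        rcases ht with ht | ht
        · left
          exact mul_neg_of_pos_of_neg (by positivity) ht
        · right
          exact mul_ne_zero (by positivity) ht
      · rw [hDf]
        exact hnear _ (hnw t)
    have hpi := Real.pi_pos
    have hu1 : ∀ t ∈ Ioc (0 : ℝ) (1 / 2),
        Real.cos (2 * Real.pi * t) < 0 ∨ Real.sin (2 * Real.pi * t) ≠ 0 := by
      intro t ht
      rcases ht.2.eq_or_lt with h | h
      · left
        rw [h, show 2 * Real.pi * (1 / 2) = Real.pi by ring, Real.cos_pi]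
        norm_num
      · right
        exact (Real.sin_pos_of_pos_of_lt_pi (by have := ht.1; positivity) (by nlinarith)).ne'
    have hu2 : ∀ t ∈ Ico (-(1 / 2) : ℝ) 0,
        Real.cos (2 * Real.pi * t) < 0 ∨ Real.sin (2 * Real.pi * t) ≠ 0 := by
      intro t ht
      rcases ht.1.eq_or_lt with h | h
      · left
        rw [← h, show 2 * Real.pi * (-(1 / 2)) = -Real.pi by ring, Real.cos_neg, Real.cos_pi]
        norm_num
      · right
        have h1 := ht.2
        exact (Real.sin_neg_of_neg_of_neg_pi_lt (by nlinarith) (by nlinarith)).ne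
    -- agreement with the section
    have hagree : ∀ t ∈ Ioo (-(1 / 4) : ℝ) (1 / 4), T.D (f t) ∈ Cc ∧ f t = s (T.D (f t)) := by
      have hmem : ∀ t ∈ Ioo (-(1 / 4) : ℝ) (1 / 4), T.D (f t) ∈ Cc := by
        intro t ht
        rw [hDf]
        refine hnearC _ (hnw t) ?_
        rw [hre]
        refine mul_pos (by positivity) (Real.cos_pos_of_mem_Ioo ⟨?_, ?_⟩)
        · have := ht.1; nlinarith
        · have := ht.2; nlinarith
      have hcomp : ContinuousOn (fun t : ℝ => s (T.D (f t))) (Ioo (-(1 / 4) : ℝ) (1 / 4)) :=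
        hs.comp (T.hB.cont.comp hfc).continuousOn hmem
      have key := lift_unique (D := T.D) (isPreconnected_Ioo (a := (-(1 / 4) : ℝ)) (b := 1 / 4))
        hfc.continuousOn hcomp (fun t ht => (hsD _ (hmem t ht)).symm)
        (fun t ht => T.toCtx.loc_of _ fun g₂ hg₂ => ?_) (x₀ := 0) ⟨by norm_num, by norm_num⟩ ?_
      · exact fun t ht => ⟨hmem t ht, key t ht⟩
      · have h1 := hmem t ht
        rw [hg₂] at h1
        have h2 := T.toCtx.lattice_zero h1.1
        have h3 := h1.2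
        rw [h2] at h3
        simp at h3
        linarith
      · have h1 : f 0 = u' := by
          rw [hz]
          simp [hf]
        rw [h1, hDu']
    obtain ⟨γ, hγ⟩ := hfrad (1 / 8) (hu1 _ ⟨by norm_num, by norm_num⟩)
    obtain ⟨γ', hγ'⟩ := hfrad (-(1 / 8)) (hu2 _ ⟨by norm_num, by norm_num⟩)
    have k1 := T.toCtx.rad_const (isPreconnected_Ioc (a := (0 : ℝ)) (b := 1 / 2))
      hfc.continuousOn (fun t ht => hfrad t (hu1 t ht)) (x₀ := 1 / 8) ⟨by norm_num, by norm_num⟩ hγ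
      (1 / 2) ⟨by norm_num, le_rfl⟩
    have k2 := T.toCtx.rad_const (isPreconnected_Ico (a := (-(1 / 2) : ℝ)) (b := 0))
      hfc.continuousOn (fun t ht => hfrad t (hu2 t ht)) (x₀ := -(1 / 8))
      ⟨by norm_num, by norm_num⟩ hγ' (-(1 / 2)) ⟨le_rfl, by norm_num⟩
    have k3 : f (1 / 2) = (g' * chat ^ (1 : ℤ) * g'⁻¹) • f (-(1 / 2)) := by
      change g' • T.j (((1 / 2 : ℝ)) +ᵥ z) = _ • (g' • T.j ((-(1 / 2) : ℝ) +ᵥ z))
      have : (((1 / 2 : ℝ)) +ᵥ z : ℍ) = (1 : ℝ) +ᵥ ((-(1 / 2) : ℝ) +ᵥ z : ℍ) := by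
        rw [vadd_vadd]
        norm_num
      rw [this, T.hj1, ← mul_smul, ← mul_smul, zpow_one]
      congr 1
      group
    have ht0 : T.tau (g' * chat ^ (1 : ℤ) * g'⁻¹) = 0 := by
      rw [T.toCtx.tau_mul, T.toCtx.tau_mul, T.toCtx.tau_inv, T.tau_chat_zpow]
      ring
    rw [k3] at k1
    have k4 := Ctx.Rad.unique T.toCtx k1 (Ctx.Rad.smul T.toCtx k2 ht0)
    refine ⟨γ, γ', Or.inr ⟨g', 1, ⟨by rw [hqg']; exact hq, (-(1 / 2) : ℝ) +ᵥ z, ?_, k2⟩, k4⟩, ?_, ?_⟩
    · have h1 := hDf (-(1 / 2))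
      have h2 : Complex.exp (2 * Real.pi * Complex.I * ((-(1 / 2) : ℝ) : ℂ)) = -1 := by
        have : (2 * Real.pi * Complex.I * ((-(1 / 2) : ℝ) : ℂ)) = -(Real.pi * Complex.I) := by
          push_cast; ring
        rw [this, Complex.exp_neg, Complex.exp_pi_mul_I]
        norm_num
      rw [h2] at h1
      rw [hqg']
      change T.D (f (-(1 / 2))) = _
      rw [h1]
      ring
    · obtain ⟨m1, m2⟩ := hagree (1 / 8) ⟨by norm_num, by norm_num⟩
      refine hupc m1 ?_ (by rw [← m2]; exact hγ)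
      rw [← him, hDf, hdiv, him2]
      exact mul_pos (by positivity) (Real.sin_pos_of_pos_of_lt_pi (by positivity) (by nlinarith))
    · obtain ⟨m1, m2⟩ := hagree (-(1 / 8)) ⟨by norm_num, by norm_num⟩
      refine hdnc m1 ?_ (by rw [← m2]; exact hγ')
      rw [← him, hDf, hdiv, him2]
      exact mul_neg_of_pos_of_neg (by positivity)
        (Real.sin_neg_of_neg_of_neg_pi_lt (by nlinarith) (by nlinarith))
  · -- the puncture is filled in this sheet
    have hball : ∀ w : ℂ, ‖w‖ < T.κ → q * (1 + w) ∈ Metric.ball (T.q₀ + T.tau g) T.r := by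
      intro w hw
      rw [mem_ball_iff_norm, ← hqdef]
      have : q * (1 + w) - q = q * w := by ring
      rw [this, norm_mul, mul_comm]
      calc ‖w‖ * ‖q‖ < T.κ * ‖q‖ := mul_lt_mul_of_pos_right hw hqpos
        _ ≤ T.r := hκr
    set S : Set ℂ := {w : ℂ | ‖w‖ < T.κ ∧ (w.re < 0 ∨ w.im ≠ 0)} with hS
    have hSrad : ∀ w ∈ S, ∃ γ, T.toCtx.Rad (s₂ (q * (1 + w))) γ := by
      intro w hw
      refine T.toCtx.exists_rad_w hq (w := w) ?_ hw.2 (hs₂D _ (hball w hw.1))
        (by rw [hs₂D _ (hball w hw.1)]; exact hnear w hw.1)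
      intro h0
      have h1 : w = -1 := by linear_combination h0
      have h2 := hw.1
      rw [h1, norm_neg, norm_one] at h2
      linarith
    have hScont : ContinuousOn (fun w : ℂ => s₂ (q * (1 + w))) S :=
      hs₂.comp (Continuous.continuousOn (by fun_prop)) (fun w hw => hball w hw.1)
    have hwn : ∀ ε : ℝ, |ε| ≤ 1 / 2 → ‖((T.κ / 2 : ℝ) : ℂ) * (1 + ε * Complex.I)‖ < T.κ := by
      intro ε hε
      rw [norm_mul, Complex.norm_real, Real.norm_of_nonneg (by positivity)]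
      have h1 : ‖(1 + ε * Complex.I : ℂ)‖ ≤ 1 + |ε| := by
        refine (norm_add_le _ _).trans ?_
        rw [norm_one, norm_mul, Complex.norm_I, mul_one, Complex.norm_real, Real.norm_eq_abs]
      nlinarith
    have hwre : ∀ ε : ℝ, (((T.κ / 2 : ℝ) : ℂ) * (1 + ε * Complex.I)).re = T.κ / 2 := by
      intro ε
      rw [Complex.re_ofReal_mul]
      simp
    have hwim : ∀ ε : ℝ, (((T.κ / 2 : ℝ) : ℂ) * (1 + ε * Complex.I)).im = T.κ / 2 * ε := by
      intro ε
      rw [Complex.im_ofReal_mul]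
      simp
    have hwS : ∀ ε : ℝ, |ε| ≤ 1 / 2 → ε ≠ 0 → ((T.κ / 2 : ℝ) : ℂ) * (1 + ε * Complex.I) ∈ S := by
      intro ε h1 h2
      refine ⟨hwn ε h1, Or.inr ?_⟩
      rw [hwim]
      exact mul_ne_zero (by positivity) h2
    obtain ⟨γ, hγ⟩ := hSrad _ (hwS (1 / 2) (by norm_num [abs_of_pos]) (by norm_num))
    have hall := T.toCtx.rad_const (slit_preconnected hκ0) hScont hSrad
      (hwS (1 / 2) (by norm_num [abs_of_pos]) (by norm_num)) hγ
    -- agreement
    have hconv : Convex ℝ (Cc ∩ Metric.ball (T.q₀ + T.tau g) T.r) := hCconv.inter (convex_ball _ _)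
    have hagree : ∀ y ∈ Cc ∩ Metric.ball (T.q₀ + T.tau g) T.r, s y = s₂ y := by
      refine lift_unique (D := T.D) hconv.isPreconnected (hs.mono inter_subset_left)
        (hs₂.mono inter_subset_right) (fun y hy => by rw [hsD y hy.1, hs₂D y hy.2])
        (fun y hy => T.toCtx.loc_of _ fun g₂ hg₂ => ?_) (x₀ := y') ⟨hy'C, hball _ hw0n⟩ ?_
      · rw [hsD y hy.1] at hg₂
        have h1 := hy.1
        rw [hg₂] at h1
        have h2 := T.toCtx.lattice_zero h1.1
        have h3 := h1.2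
        rw [h2] at h3
        simp at h3
        linarith
      · have : s₂ (T.D u') = u' := hs₂u
        rw [hDu'] at this
        rw [this]
    have hside : ∀ ε : ℝ, |ε| ≤ 1 / 2 → ε ≠ 0 →
        T.toCtx.Rad (s (q * (1 + ((T.κ / 2 : ℝ) : ℂ) * (1 + ε * Complex.I)))) γ := by
      intro ε h1 h2
      rw [hagree _ ⟨hnearC _ (hwn ε h1) (by rw [hwre]; positivity), hball _ (hwn ε h1)⟩]
      exact hall _ (hwS ε h1 h2)
    refine ⟨γ, γ, Or.inl rfl, ?_, ?_⟩
    · refine hupc (y₁ := q * (1 + ((T.κ / 2 : ℝ) : ℂ) * (1 + (1 / 2 : ℝ) * Complex.I))) ?_ ?_ ?_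
      · exact hnearC _ (hwn _ (by norm_num [abs_of_pos])) (by rw [hwre]; positivity)
      · rw [← him, hdiv, hwim]
        positivity
      · exact hside _ (by norm_num [abs_of_pos]) (by norm_num)
    · refine hdnc (y₁ := q * (1 + ((T.κ / 2 : ℝ) : ℂ) * (1 + (-(1 / 2) : ℝ) * Complex.I))) ?_ ?_ ?_
      · exact hnearC _ (hwn _ (by norm_num [abs_of_pos])) (by rw [hwre]; positivity)
      · rw [← him, hdiv, hwim]
        nlinarith
      · exact hside _ (by norm_num [abs_of_pos]) (by norm_num)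

end Ctx2

end TLAux

end Pool.Agent.CircleShift
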